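import Pool.Agent.MP_3312ae_al.HR.C1.Core

/-! Finiteness of a residually finite torsion `p`-group with a coset identity. -/

set_option autoImplicit false

namespace Pool.Agent.MP_3312ae_al.HR.C1

open scoped commutatorElement

section
variable {R : Type} [Ring R] {ι : Type} (a : ι → R)

/-- The words of length `n`. -/
def Wd (n : ℕ) : Set R := {x | ∃ w : List ι, w.length = n ∧ (w.map a).prod = x}

theorem wd_finite [Finite ι] (n : ℕ) : (Wd a n).Finite :=
  ((List.finite_length_eq ι n).image fun w => (w.map a).prod).subset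
    fun _ ⟨w, hw, e⟩ => ⟨w, hw, e⟩

variable [(Ideal.span (Set.range a)).IsTwoSided]

theorem wd_mem (w : List ι) : (w.map a).prod ∈ Ideal.span (Set.range a) ^ w.length := by
  induction w with
  | nil => exact pzero _ _
  | cons j w ih =>
    rw [List.map_cons, List.prod_cons, List.length_cons, add_comm]
    exact pmul _ (pone _ (Ideal.subset_span ⟨j, rfl⟩)) ih

theorem pow_le_wd (n : ℕ) : Ideal.span (Set.range a) ^ n ≤ Ideal.span (Wd a n) := by
  induction n with
  | zero =>
    have : Ideal.span (Wd a 0) = ⊤ :=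
      (Ideal.eq_top_iff_one _).2 (Ideal.subset_span ⟨[], rfl, rfl⟩)
    rw [this]; exact le_top
  | succ n ih =>
    rw [Submodule.pow_succ, Ideal.mul_le]
    intro x hx y hy
    induction hy using Submodule.span_induction generalizing x with
    | mem y hy =>
      obtain ⟨i, rfl⟩ := hy
      have hx' := ih hx
      clear hx
      induction hx' using Submodule.span_induction with
      | mem x hx =>
        obtain ⟨w, hw, rfl⟩ := hx
        exact Ideal.subset_span ⟨w ++ [i], by simp [hw], by simp⟩
      | zero => rw [zero_mul]; exact zero_mem _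
      | add u v _ _ hu hv => rw [add_mul]; exact add_mem hu hv
      | smul c u _ hu => rw [smul_eq_mul, mul_assoc]; exact Ideal.mul_mem_left _ _ hu
    | zero => rw [mul_zero]; exact zero_mem _
    | add u v _ _ hu hv => rw [mul_add]; exact add_mem (hu x hx) (hv x hx)
    | smul c u _ hu =>
      rw [smul_eq_mul, ← mul_assoc]
      exact hu _ (Ideal.mul_mem_right _ _ hx)

theorem finite_mod (k : Type) [CommRing k] [Finite k] [Algebra k R] [Finite ι]
    (hdec : ∀ u : R, ∃ c : k, u - algebraMap k R c ∈ Ideal.span (Set.range a)) (m : ℕ) :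
    ∃ T : Set R, T.Finite ∧ ∀ u, ∃ t ∈ T, u - t ∈ Ideal.span (Set.range a) ^ m := by
  induction m with
  | zero => exact ⟨{0}, Set.finite_singleton _, fun u => ⟨0, rfl, pzero _ _⟩⟩
  | succ m ih =>
    obtain ⟨T, hT, h⟩ := ih
    have hle : ∀ t ∈ Submodule.span k (Wd a m), t ∈ Ideal.span (Set.range a) ^ m := by
      intro t ht
      induction ht using Submodule.span_induction with
      | mem x hx => obtain ⟨w, rfl, rfl⟩ := hx; exact wd_mem a w
      | zero => exact zero_mem _
      | add u v _ _ hu hv => exact add_mem hu hv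
      | smul c u _ hu => rw [Algebra.smul_def]; exact Ideal.mul_mem_left _ _ hu
    have key : ∀ x ∈ Ideal.span (Wd a m), ∃ t ∈ Submodule.span k (Wd a m),
        x - t ∈ Ideal.span (Set.range a) ^ (m + 1) := by
      intro x hx
      induction hx using Submodule.span_induction with
      | mem x hx => exact ⟨x, Submodule.subset_span hx, by rw [sub_self]; exact zero_mem _⟩
      | zero => exact ⟨0, zero_mem _, by rw [sub_self]; exact zero_mem _⟩
      | add u v _ _ hu hv =>
        obtain ⟨s, hs, hs'⟩ := hu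
        obtain ⟨t, ht, ht'⟩ := hv
        exact ⟨s + t, add_mem hs ht, by rw [add_sub_add_comm]; exact add_mem hs' ht'⟩
      | smul c u _ hu =>
        obtain ⟨t, ht, ht'⟩ := hu
        obtain ⟨c₀, hc⟩ := hdec c
        refine ⟨c₀ • t, Submodule.smul_mem _ _ ht, ?_⟩
        have e : c • u - c₀ • t = c * (u - t) + (c - algebraMap k R c₀) * t := by
          rw [smul_eq_mul, Algebra.smul_def]; noncomm_ring
        rw [e]
        refine add_mem (Ideal.mul_mem_left _ _ ht') ?_
        rw [add_comm]
        exact pmul _ (pone _ hc) (hle t ht)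
    refine ⟨Set.image2 (· + ·) T (Submodule.span k (Wd a m)),
      hT.image2 _ ((wd_finite a m).submoduleSpan k), fun u => ?_⟩
    obtain ⟨t, ht, ht'⟩ := h u
    obtain ⟨s, hs, hs'⟩ := key _ (pow_le_wd a m ht')
    exact ⟨t + s, Set.mem_image2_of_mem ht hs, by rwa [← sub_sub]⟩

end

theorem unipotent {p : ℕ} [hp : Fact p.Prime] {Γ : Type} [Group Γ] (hΓ : IsPGroup p Γ)
    {R : Type} [Ring R] (ρ : Γ →* R) {V : Type} [AddCommGroup V] [Module (ZMod p) V] [Finite V]
    (π : R →+* Module.End (ZMod p) V) {ι : Type} (g : ι → Γ) (J : Ideal R) [J.IsTwoSided]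
    (hJ : J ≤ J * Ideal.span (Set.range fun i => ρ (g i) - 1)) : ∀ u ∈ J, π u = 0 := by
  let A : Submodule (ZMod p) V :=
    { carrier := {v | ∀ u ∈ J, π u v = 0}
      add_mem' := fun hv hw u hu => by rw [map_add, hv u hu, hw u hu, add_zero]
      zero_mem' := fun u _ => map_zero _
      smul_mem' := fun c v hv u hu => by rw [map_smul, hv u hu, smul_zero] }
  have hA : ∀ (c : R) (v : V), v ∈ A → π c v ∈ A := by
    intro c v hv u hu
    rw [← Module.End.mul_apply, ← map_mul]
    exact hv _ (J.mul_mem_right _ hu)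
  suffices h : A = ⊤ by
    intro u hu
    ext v
    have : v ∈ A := by rw [h]; trivial
    exact this u hu
  by_contra hne
  have hnt : Nontrivial (V ⧸ A) := Submodule.Quotient.nontrivial_iff.2 hne
  have hfin : Finite (V ⧸ A) := Finite.of_surjective _ (Submodule.Quotient.mk_surjective A)
  have hcard : p ∣ Nat.card (V ⧸ A) := by
    rw [Module.natCard_eq_pow_finrank (K := ZMod p), Nat.card_zmod]
    exact dvd_pow_self _ Module.finrank_pos.ne'
  let σ : Representation (ZMod p) Γ V := π.toMonoidHom.comp ρ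
  let τ := σ.quotient A fun x v hv => hA (ρ x) v hv
  let _ : MulAction Γ (V ⧸ A) := MulAction.compHom (V ⧸ A) τ
  obtain ⟨b, hb, hb0⟩ := hΓ.exists_fixed_point_of_prime_dvd_card_of_fixed_point (V ⧸ A) hcard
    (a := 0) (fun x => map_zero (τ x))
  obtain ⟨v, rfl⟩ := Submodule.Quotient.mk_surjective A b
  apply hb0
  symm
  rw [Submodule.Quotient.mk_eq_zero]
  have h1 : ∀ y ∈ Ideal.span (Set.range fun i => ρ (g i) - 1), π y v ∈ A := by
    intro y hy
    induction hy using Submodule.span_induction with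
    | mem y hy =>
      obtain ⟨i, rfl⟩ := hy
      have : (Submodule.Quotient.mk (π (ρ (g i)) v) : V ⧸ A) = Submodule.Quotient.mk v := hb (g i)
      rw [Submodule.Quotient.eq] at this
      simpa using this
    | zero => rw [map_zero]; exact zero_mem _
    | add u w _ _ hu hw => rw [map_add]; exact add_mem hu hw
    | smul c u _ hu => rw [smul_eq_mul, map_mul]; exact hA c _ hu
  intro u hu
  refine Submodule.mul_induction_on (hJ hu) (fun x hx y hy => ?_) (fun x y hx hy => ?_)
  · rw [map_mul]; exact h1 y hy x hx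
  · rw [map_add, LinearMap.add_apply, hx, hy, add_zero]

theorem finite_of (hZ : ThmZ) {p : ℕ} [hp : Fact p.Prime] {Γ : Type} [Group Γ] (hΓ : IsPGroup p Γ)
    {r : ℕ} (g : Fin r → Γ) (hgen : Subgroup.closure (Set.range g) = ⊤) (i₀ : Fin r)
    (N : Subgroup Γ) (hcomm : ∀ a b : Γ, ⁅a, b⁆ ∈ N)
    (hg : ∀ i, g i = g i₀ ∨ g i ∈ N) (e : ℕ) (hq : ∀ n ∈ N, (g i₀ * n) ^ p ^ e = 1)
    (hres : ∀ x : Γ, x ≠ 1 → ∃ (X : Type) (_ : Finite X) (_ : MulAction Γ X) (z : X), x • z ≠ z) :
    Finite Γ := by
  set ρ := MonoidAlgebra.of (ZMod p) Γ with hρ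
  set I := Ideal.span (Set.range fun i => ρ (g i) - 1) with hIdef
  have hI : ∀ x, ρ x - 1 ∈ I := by
    intro x
    have hx : x ∈ Subgroup.closure (Set.range g) := by rw [hgen]; trivial
    induction hx using Subgroup.closure_induction with
    | mem x hx => obtain ⟨i, rfl⟩ := hx; exact Ideal.subset_span ⟨i, rfl⟩
    | one => rw [map_one, sub_self]; exact zero_mem _
    | mul x y _ _ hx hy =>
      have : ρ (x * y) - 1 = ρ x * (ρ y - 1) + (ρ x - 1) := by rw [map_mul]; noncomm_ring
      rw [this]; exact add_mem (I.mul_mem_left _ hy) hx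
    | inv x _ hx =>
      have : ρ x⁻¹ - 1 = -ρ x⁻¹ * (ρ x - 1) := by
        rw [mul_sub, neg_mul, ← map_mul, inv_mul_cancel, map_one]; noncomm_ring
      rw [this]; exact I.mul_mem_left _ hx
  have h2 : I.IsTwoSided := ⟨fun {x} y hx => by
    induction hx using Submodule.span_induction with
    | mem x hx =>
      obtain ⟨i, rfl⟩ := hx
      induction y using MonoidAlgebra.induction_on with
      | of m =>
        have : (ρ (g i) - 1) * ρ m = (ρ (g i * m) - 1) - (ρ m - 1) := by rw [map_mul]; noncomm_ring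
        exact this ▸ sub_mem (hI _) (hI _)
      | add u v hu hv => rw [mul_add]; exact add_mem hu hv
      | smul c u hu => rw [mul_smul_comm, Algebra.smul_def]; exact I.mul_mem_left _ hu
    | zero => rw [zero_mul]; exact zero_mem _
    | add u v _ _ hu hv => rw [add_mul]; exact add_mem hu hv
    | smul c u _ hu => rw [smul_eq_mul, mul_assoc]; exact I.mul_mem_left _ hu⟩
  have hdec : ∀ u : MonoidAlgebra (ZMod p) Γ, ∃ c : ZMod p, u - algebraMap _ _ c ∈ I := by
    intro u
    induction u using MonoidAlgebra.induction_on with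
    | of m => exact ⟨1, by rw [map_one]; exact hI m⟩
    | add u v hu hv =>
      obtain ⟨c, hc⟩ := hu
      obtain ⟨d, hd⟩ := hv
      exact ⟨c + d, by rw [map_add, add_sub_add_comm]; exact add_mem hc hd⟩
    | smul c u hu =>
      obtain ⟨d, hd⟩ := hu
      exact ⟨c * d, by rw [map_mul, Algebra.smul_def, ← mul_sub]; exact I.mul_mem_left _ hd⟩
  obtain ⟨n, hn⟩ := core hZ hΓ g i₀ N hcomm hg e hq ρ I hI
  have hJ : I ^ n ≤ I ^ n * I := by
    rw [← Submodule.pow_succ]
    refine (pow_le_wd _ n).trans (Ideal.span_le.2 ?_)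
    rintro _ ⟨w, hw, rfl⟩
    exact hn w hw
  obtain ⟨T, hT, h⟩ := finite_mod (fun i => ρ (g i) - 1) (ZMod p) hdec n
  choose t ht ht' using fun x : Γ => h (ρ x)
  have := hT.to_subtype
  refine Finite.of_injective (fun x => (⟨t x, ht x⟩ : T)) fun x y hxy => ?_
  have e1 : t x = t y := congrArg Subtype.val hxy
  have e2 : ρ (y⁻¹ * x) - 1 ∈ I ^ n := by
    have h3 := (I ^ n).mul_mem_left (ρ y⁻¹) (sub_mem (ht' x) (ht' y))
    rwa [e1, sub_sub_sub_cancel_right, mul_sub, ← map_mul, ← map_mul, inv_mul_cancel,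
      map_one] at h3
  by_contra hne
  obtain ⟨X, _, _, z, hz⟩ := hres (y⁻¹ * x) fun h => hne (inv_mul_eq_one.1 h).symm
  have : Finite (MonoidAlgebra (ZMod p) X) :=
    Finite.of_injective (fun u : MonoidAlgebra (ZMod p) X => (u.coeff : X → ZMod p))
      (DFunLike.coe_injective.comp MonoidAlgebra.coeff_injective)
  have h4 := unipotent hΓ ρ (Representation.ofMulAction (ZMod p) Γ X).asAlgebraHom.toRingHom g
    (I ^ n) hJ _ e2
  rw [map_sub, map_one, sub_eq_zero] at h4
  have h5 : Representation.ofMulAction (ZMod p) Γ X (y⁻¹ * x) = 1 := by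
    rw [← h4]; exact (Representation.asAlgebraHom_of _ _).symm
  have h6 := Representation.ofMulAction_single (k := ZMod p) (y⁻¹ * x) z 1
  rw [h5, Module.End.one_apply, MonoidAlgebra.single_left_inj one_ne_zero] at h6
  exact hz h6.symm

end Pool.Agent.MP_3312ae_al.HR.C1
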