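import Mathlib

/-! The graded ring of the `I`-adic filtration, as a quotient of the Rees algebra. -/

set_option autoImplicit false

namespace Pool.Agent.MP_3312ae_al.HR.C1

open Polynomial
open scoped commutatorElement

variable (k : Type) [CommRing k] {R : Type} [Ring R] [Algebra k R] (I : Ideal R) [I.IsTwoSided]

theorem pmul {i j : ℕ} {u v : R} (hu : u ∈ I ^ i) (hv : v ∈ I ^ j) : u * v ∈ I ^ (i + j) := by
  rw [Ideal.IsTwoSided.pow_add]
  exact Ideal.mul_mem_mul hu hv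

omit [I.IsTwoSided] in
theorem ple {i j : ℕ} (h : i ≤ j) {u : R} (hu : u ∈ I ^ j) : u ∈ I ^ i :=
  Ideal.pow_le_pow_right h hu

omit [I.IsTwoSided] in
theorem pzero (u : R) : u ∈ I ^ 0 := by
  rw [Submodule.pow_zero, Ideal.one_eq_top]; trivial

omit [I.IsTwoSided] in
theorem pone {u : R} (hu : u ∈ I) : u ∈ I ^ 1 := by
  rw [Submodule.pow_one]; exact hu

/-- The Rees algebra. -/
def Rees : Subalgebra k R[X] where
  carrier := {f | ∀ i, f.coeff i ∈ I ^ i}
  mul_mem' := by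
    intro f g hf hg i
    rw [coeff_mul]
    refine Submodule.sum_mem _ fun c hc => ?_
    rw [← Finset.HasAntidiagonal.mem_antidiagonal.1 hc]
    exact pmul I (hf _) (hg _)
  add_mem' := by
    intro f g hf hg i
    rw [coeff_add]
    exact add_mem (hf i) (hg i)
  algebraMap_mem' := by
    intro c i
    rw [Polynomial.algebraMap_apply, coeff_C]
    split_ifs with h
    · subst h; exact pzero I _
    · exact zero_mem _

/-- The shifted ideal. -/
def JJ : Ideal (Rees k I) where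
  carrier := {f | ∀ i, (f : R[X]).coeff i ∈ I ^ (i + 1)}
  add_mem' := by
    intro f g hf hg i
    rw [Subalgebra.coe_add, coeff_add]
    exact add_mem (hf i) (hg i)
  zero_mem' := by
    intro i
    rw [Subalgebra.coe_zero, coeff_zero]
    exact zero_mem _
  smul_mem' := by
    intro f g hg i
    rw [smul_eq_mul, Subalgebra.coe_mul, coeff_mul]
    refine Submodule.sum_mem _ fun c hc => ?_
    rw [← Finset.HasAntidiagonal.mem_antidiagonal.1 hc, add_assoc]
    exact pmul I (f.2 _) (hg _)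

instance : (JJ k I).IsTwoSided where
  mul_mem_of_left := by
    intro f g hf i
    rw [Subalgebra.coe_mul, coeff_mul]
    refine Submodule.sum_mem _ fun c hc => ?_
    rw [← Finset.HasAntidiagonal.mem_antidiagonal.1 hc, add_right_comm]
    exact pmul I (hf _) (g.2 _)

/-- The associated graded algebra. -/
abbrev Gr : Type := Rees k I ⧸ JJ k I

theorem mono_mem {i : ℕ} {u : R} (h : u ∈ I ^ i) : monomial i u ∈ Rees k I := by
  intro j
  rw [coeff_monomial]
  split_ifs with hj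
  · subst hj; exact h
  · exact zero_mem _

/-- `b` is the class of `u` in degree `i`. -/
def Ld (i : ℕ) (u : R) (b : Gr k I) : Prop :=
  ∃ h : u ∈ I ^ i, b = Ideal.Quotient.mk (JJ k I) ⟨monomial i u, mono_mem k I h⟩

variable {k I}

theorem Ld.mem {i : ℕ} {u : R} {b : Gr k I} (h : Ld k I i u b) : u ∈ I ^ i := h.1

theorem ld_ex {i : ℕ} {u : R} (h : u ∈ I ^ i) : ∃ b, Ld k I i u b := ⟨_, h, rfl⟩

theorem Ld.unique {i : ℕ} {u : R} {b c : Gr k I} (h : Ld k I i u b) (h' : Ld k I i u c) :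
    b = c := by
  obtain ⟨_, rfl⟩ := h
  obtain ⟨_, rfl⟩ := h'
  rfl

theorem Ld.mul {i j : ℕ} {u v : R} {b c : Gr k I} (h : Ld k I i u b) (h' : Ld k I j v c) :
    Ld k I (i + j) (u * v) (b * c) := by
  obtain ⟨hu, rfl⟩ := h
  obtain ⟨hv, rfl⟩ := h'
  refine ⟨pmul I hu hv, ?_⟩
  rw [← map_mul]
  congr 1
  exact Subtype.ext (monomial_mul_monomial _ _ _ _)

theorem Ld.add {i : ℕ} {u v : R} {b c : Gr k I} (h : Ld k I i u b) (h' : Ld k I i v c) :
    Ld k I i (u + v) (b + c) := by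
  obtain ⟨hu, rfl⟩ := h
  obtain ⟨hv, rfl⟩ := h'
  refine ⟨add_mem hu hv, ?_⟩
  rw [← map_add]
  congr 1
  exact Subtype.ext (map_add (monomial i) u v).symm

theorem Ld.sub {i : ℕ} {u v : R} {b c : Gr k I} (h : Ld k I i u b) (h' : Ld k I i v c) :
    Ld k I i (u - v) (b - c) := by
  obtain ⟨hu, rfl⟩ := h
  obtain ⟨hv, rfl⟩ := h'
  refine ⟨sub_mem hu hv, ?_⟩
  rw [← map_sub]
  congr 1
  exact Subtype.ext (map_sub (monomial i) u v).symm

theorem ld_zero (i : ℕ) : Ld k I i 0 0 := by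
  refine ⟨zero_mem _, ?_⟩
  rw [← map_zero (Ideal.Quotient.mk (JJ k I))]
  congr 1
  exact Subtype.ext (map_zero (monomial i)).symm

theorem ld_one : Ld k I 0 1 1 := by
  refine ⟨pzero I _, ?_⟩
  rw [← map_one (Ideal.Quotient.mk (JJ k I))]
  congr 1

theorem ld_sum {ι : Type} (s : Finset ι) {i : ℕ} {u : ι → R} {b : ι → Gr k I}
    (h : ∀ j ∈ s, Ld k I i (u j) (b j)) : Ld k I i (∑ j ∈ s, u j) (∑ j ∈ s, b j) := by
  classical
  induction s using Finset.induction_on with
  | empty => simpa using ld_zero i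
  | insert a s ha ih =>
    rw [Finset.sum_insert ha, Finset.sum_insert ha]
    exact (h a (Finset.mem_insert_self _ _)).add
      (ih fun j hj => h j (Finset.mem_insert_of_mem hj))

theorem Ld.zero_iff {i : ℕ} {u : R} {b : Gr k I} (h : Ld k I i u b) :
    b = 0 ↔ u ∈ I ^ (i + 1) := by
  obtain ⟨hu, rfl⟩ := h
  rw [Ideal.Quotient.eq_zero_iff_mem]
  constructor
  · intro H
    have := H i
    simpa using this
  · intro H j
    change (monomial i u).coeff j ∈ _
    rw [coeff_monomial]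
    split_ifs with hj
    · subst hj; exact H
    · exact zero_mem _

theorem Ld.congr {i : ℕ} {u v : R} {b : Gr k I} (h : Ld k I i u b) (hv : v - u ∈ I ^ (i + 1)) :
    Ld k I i v b := by
  obtain ⟨c, hc⟩ := ld_ex (k := k) (ple I (Nat.le_succ i) hv)
  have h0 : c = 0 := hc.zero_iff.2 hv
  have := h.add hc
  rwa [h0, add_zero, add_sub_cancel] at this

theorem Ld.pow {i : ℕ} {u : R} {b : Gr k I} (h : Ld k I i u b) (m : ℕ) :
    Ld k I (i * m) (u ^ m) (b ^ m) := by
  induction m with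
  | zero => simpa using ld_one
  | succ m ih => rw [pow_succ, pow_succ, Nat.mul_succ]; exact ih.mul h

theorem Ld.mul_unit {i : ℕ} {u w : R} {b : Gr k I} (h : Ld k I i u b) (hw : w - 1 ∈ I) :
    Ld k I i (u * w) b := by
  refine h.congr ?_
  have : u * w - u = u * (w - 1) := by noncomm_ring
  rw [this]
  exact pmul I h.mem (pone I hw)

theorem Ld.conj {i j : ℕ} {g g' u : R} {b c : Gr k I} (hg : g * g' = 1) (hg' : g' - 1 ∈ I)
    (h : Ld k I i (g - 1) b) (h' : Ld k I j u c) :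
    Ld k I (i + j) (g * u * g' - u) (b * c - c * b) := by
  have h1 := h.mul h'
  have h2 := h'.mul h
  rw [add_comm j i] at h2
  have h3 := (h1.sub h2).mul_unit hg'
  have : ((g - 1) * u - u * (g - 1)) * g' = g * u * g' - u := by
    have e : ((g - 1) * u - u * (g - 1)) * g' = g * u * g' - u * (g * g') := by noncomm_ring
    rw [e, hg, mul_one]
  rwa [this] at h3

variable {Γ : Type} [Group Γ] (ρ : Γ →* R)

theorem Ld.comm (hI : ∀ g, ρ g - 1 ∈ I) {i j : ℕ} {g h : Γ} {b c : Gr k I}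
    (hb : Ld k I i (ρ g - 1) b) (hc : Ld k I j (ρ h - 1) c) :
    Ld k I (i + j) (ρ ⁅g, h⁆ - 1) (b * c - c * b) := by
  have e1 : ρ g * ρ g⁻¹ = 1 := by rw [← map_mul, mul_inv_cancel, map_one]
  have e2 : ρ h * ρ h⁻¹ = 1 := by rw [← map_mul, mul_inv_cancel, map_one]
  have h1 := (Ld.conj e1 (hI g⁻¹) hb hc).mul_unit (hI h⁻¹)
  have : (ρ g * (ρ h - 1) * ρ g⁻¹ - (ρ h - 1)) * ρ h⁻¹ = ρ ⁅g, h⁆ - 1 := by
    have e : (ρ g * (ρ h - 1) * ρ g⁻¹ - (ρ h - 1)) * ρ h⁻¹
        = ρ g * ρ h * ρ g⁻¹ * ρ h⁻¹ - (ρ g * ρ g⁻¹) * ρ h⁻¹ - ρ h * ρ h⁻¹ + ρ h⁻¹ := by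
      noncomm_ring
    rw [e, e1, e2, commutatorElement_def, map_mul, map_mul, map_mul, one_mul]
    abel
  rwa [this] at h1

/-- Freshman's dream for `u - 1`. -/
theorem sub_one_pow {p : ℕ} [Fact p.Prime] {A : Type} [Ring A] [Algebra (ZMod p) A] (u : A)
    (e : ℕ) : (u - 1) ^ p ^ e = u ^ p ^ e - 1 := by
  rcases subsingleton_or_nontrivial A with hA | hA
  · exact Subsingleton.elim _ _
  · have : CharP A p := charP_of_injective_algebraMap (algebraMap (ZMod p) A).injective p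
    rw [sub_pow_char_pow_of_commute p e (Commute.one_right u), one_pow]

end Pool.Agent.MP_3312ae_al.HR.C1
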