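import Mathlib

/-! A coset identity gives a symmetric identity in the graded ring. -/

set_option autoImplicit false

namespace Pool.Agent.MP_3312ae_al.HR.C1

open Finset

variable {A : Type} [Ring A] (F : ℕ → AddSubgroup A)

theorem prodF (hmul : ∀ i j u v, u ∈ F i → v ∈ F j → u * v ∈ F (i + j)) (hone : (1 : A) ∈ F 0) :
    ∀ (m : ℕ) (u : Fin m → A) (e : Fin m → ℕ), (∀ j, u j ∈ F (e j)) →
      (List.ofFn u).prod ∈ F (∑ j, e j) := by
  intro m
  induction m with
  | zero => intro u e _; simpa using hone
  | succ m ih =>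
    intro u e h
    rw [List.ofFn_succ, List.prod_cons, Fin.sum_univ_succ]
    exact hmul _ _ _ _ (h 0) (ih _ _ fun j => h j.succ)

theorem prodC (hmul : ∀ i j u v, u ∈ F i → v ∈ F j → u * v ∈ F (i + j)) (hone : (1 : A) ∈ F 0) :
    ∀ (m : ℕ) (u v : Fin m → A) (e : Fin m → ℕ), (∀ j, u j ∈ F (e j)) → (∀ j, v j ∈ F (e j)) →
      (∀ j, u j - v j ∈ F (e j + 1)) →
      (List.ofFn u).prod - (List.ofFn v).prod ∈ F (∑ j, e j + 1) := by
  intro m
  induction m with
  | zero => intro u v e _ _ _; simp
  | succ m ih =>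
    intro u v e hu hv h
    rw [List.ofFn_succ, List.prod_cons, List.ofFn_succ, List.prod_cons, Fin.sum_univ_succ]
    have h1 := hmul _ _ _ _ (h 0) (prodF F hmul hone m _ _ fun j => hu j.succ)
    have h2 := hmul _ _ _ _ (hv 0)
      (ih (fun j => u j.succ) (fun j => v j.succ) (fun j => e j.succ) (fun j => hu j.succ)
        (fun j => hv j.succ) (fun j => h j.succ))
    rw [add_right_comm] at h1
    rw [← add_assoc] at h2
    have := add_mem h1 h2
    rwa [sub_mul, mul_sub, sub_add_sub_cancel] at this

/-- A cover of minimal weight is a permutation of the singletons. -/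
theorem cover_weight {q : ℕ} (d : Fin q → ℕ) (hd : ∀ i, 1 ≤ d i) (r : Fin q → Finset (Fin q))
    (hr : ∀ i, ∃ j, i ∈ r j) (hn : ∀ σ : Equiv.Perm (Fin q), r ≠ fun j => {σ j}) :
    ∑ i, d i + 1 ≤ ∑ j, (if r j = ∅ then 1 else ∑ i ∈ r j, d i) := by
  choose τ hτ using hr
  have hsub : ∀ j, univ.filter (fun i => τ i = j) ⊆ r j := by
    intro j i hi
    rw [← (mem_filter.1 hi).2]; exact hτ i
  have hle : ∀ j, ∑ i ∈ univ.filter (fun i => τ i = j), d i
      ≤ (if r j = ∅ then 1 else ∑ i ∈ r j, d i) := by
    intro j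
    split_ifs with h
    · have := hsub j
      rw [h, subset_empty] at this
      rw [this]; simp
    · exact sum_le_sum_of_subset (hsub j)
  rw [← sum_fiberwise univ τ d, Nat.add_one_le_iff]
  refine sum_lt_sum (fun j _ => hle j) ?_
  by_contra hc
  push Not at hc
  have heq : ∀ j, r j ≠ ∅ ∧ r j = univ.filter (fun i => τ i = j) := by
    intro j
    have h1 := hc j (mem_univ j)
    by_cases h : r j = ∅
    · have := hsub j
      rw [h, subset_empty] at this
      rw [if_pos h, this] at h1
      simp at h1
    · refine ⟨h, ?_⟩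
      rw [if_neg h] at h1
      by_contra hne
      have hss : univ.filter (fun i => τ i = j) ⊂ r j :=
        (hsub j).ssubset_of_ne (fun e => hne e.symm)
      obtain ⟨i, hi, hi'⟩ := exists_of_ssubset hss
      have := sum_lt_sum_of_subset (f := d) (hsub j) hi hi' (hd i) (fun _ _ _ => Nat.zero_le _)
      omega
  have hsurj : Function.Surjective τ := by
    intro j
    obtain ⟨i, hi⟩ := nonempty_iff_ne_empty.2 (heq j).1
    rw [(heq j).2] at hi
    exact ⟨i, (mem_filter.1 hi).2⟩
  have hbij : Function.Bijective τ := Finite.surjective_iff_bijective.1 hsurj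
  refine hn (Equiv.ofBijective τ hbij).symm (funext fun j => ?_)
  rw [(heq j).2]
  ext i
  simp only [mem_filter, mem_univ, true_and, mem_singleton]
  rw [Equiv.eq_symm_apply]
  rfl

theorem ident (hanti : ∀ i j, i ≤ j → F j ≤ F i)
    (hmul : ∀ i j u v, u ∈ F i → v ∈ F j → u * v ∈ F (i + j)) (hone : (1 : A) ∈ F 0)
    (q : ℕ) (x : A) (hx : x - 1 ∈ F 1) (n : Fin q → A) (d : Fin q → ℕ) (hd : ∀ i, 1 ≤ d i)
    (hn : ∀ i, n i - 1 ∈ F (d i))
    (hq : ∀ S : Finset (Fin q),
      (x * (List.ofFn fun i => if i ∈ S then n i else 1).prod - 1) ^ q = 0) :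
    ∑ σ : Equiv.Perm (Fin q), (List.ofFn fun j => n (σ j) - 1).prod ∈ F (∑ i, d i + 1) := by
  set M := MultilinearMap.mkPiAlgebraFin ℤ q A with hM
  have hMa : ∀ u : Fin q → A, M u = (List.ofFn u).prod := fun u => rfl
  set a : Fin q → A := fun i => n i - 1 with ha
  set aT : Finset (Fin q) → A := fun T => M (T.piecewise a 1) with haT
  have hx0 : x ∈ F 0 := by
    have := add_mem (hanti 0 1 (Nat.zero_le _) hx) hone
    rwa [sub_add_cancel] at this
  have haT0 : aT ∅ = 1 := by
    simp only [haT, piecewise_empty, hMa]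
    exact List.prod_eq_one (by simp)
  have haT1 : ∀ i, aT {i} = a i := by
    intro i
    simp only [haT, piecewise_singleton]
    have : ∀ (m : ℕ) (i : Fin m) (c : A), (List.ofFn (Function.update (1 : Fin m → A) i c)).prod = c := by
      intro m
      induction m with
      | zero => intro i; exact i.elim0
      | succ m ih =>
        intro i c
        rw [List.ofFn_succ, List.prod_cons]
        refine Fin.cases ?_ (fun i => ?_) i
        · rw [Function.update_self, List.prod_eq_one, mul_one]
          intro z hz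
          obtain ⟨j, rfl⟩ := List.mem_ofFn.1 hz
          rw [Function.update_of_ne (Fin.succ_ne_zero j)]; rfl
        · rw [Function.update_of_ne (Fin.succ_ne_zero i).symm, Pi.one_apply, one_mul]
          have : (fun j : Fin m => Function.update (1 : Fin (m + 1) → A) i.succ c j.succ)
              = Function.update (1 : Fin m → A) i c := by
            funext j
            by_cases h : j = i
            · subst h; simp
            · rw [Function.update_of_ne h, Function.update_of_ne (by simpa using h)]; rfl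
          rw [this, ih]
    exact this q i (a i)
  have haTF : ∀ T, aT T ∈ F (∑ i ∈ T, d i) := by
    intro T
    have := prodF F hmul hone q (T.piecewise a 1) (fun i => if i ∈ T then d i else 0) (by
      intro j
      by_cases h : j ∈ T
      · rw [piecewise_eq_of_mem _ _ _ h, if_pos h]; exact hn j
      · rw [piecewise_eq_of_notMem _ _ _ h, if_neg h]; exact hone)
    rwa [sum_ite_mem, univ_inter] at this
  set b : Finset (Fin q) → A := fun T => x * aT T - if T = ∅ then 1 else 0 with hb
  have hbF : ∀ T, b T ∈ F (if T = ∅ then 1 else ∑ i ∈ T, d i) := by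
    intro T
    by_cases h : T = ∅
    · simp only [hb, h, if_true, haT0, mul_one]; exact hx
    · simp only [hb, h, if_false, sub_zero]
      have := hmul _ _ _ _ hx0 (haTF T)
      rwa [zero_add] at this
  have hS : ∀ S : Finset (Fin q),
      ∑ r ∈ Fintype.piFinset (fun _ : Fin q => S.powerset), M (fun j => b (r j)) = 0 := by
    intro S
    rw [← M.map_sum_finset (fun _ T => b T) (fun _ => S.powerset), ← hq S]
    have e1 : (List.ofFn fun i => if i ∈ S then n i else 1).prod = ∑ T ∈ S.powerset, aT T := by
      rw [← M.map_piecewise_add a 1 S, hMa]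
      congr 2
      funext i
      by_cases h : i ∈ S
      · rw [piecewise_eq_of_mem _ _ _ h, if_pos h]; simp [ha]
      · rw [piecewise_eq_of_notMem _ _ _ h, if_neg h]; rfl
    have e2 : ∑ T ∈ S.powerset, b T
        = x * (List.ofFn fun i => if i ∈ S then n i else 1).prod - 1 := by
      rw [e1, mul_sum, sum_sub_distrib, sum_ite_eq' S.powerset ∅, if_pos (empty_mem_powerset S)]
    rw [e2, hM, MultilinearMap.mkPiAlgebraFin_apply_const]
  have hcov : ∑ r ∈ univ.filter (fun r : Fin q → Finset (Fin q) => ∀ i, ∃ j, i ∈ r j),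
      M (fun j => b (r j)) = 0 := by
    have h0 : ∑ C : Finset (Fin q), ∑ r ∈ Fintype.piFinset (fun _ : Fin q => Cᶜ.powerset),
        ((-1 : ℤ) ^ C.card) • M (fun j => b (r j)) = 0 := by
      refine sum_eq_zero fun C _ => ?_
      rw [← smul_sum, hS, smul_zero]
    rw [sum_comm' (t' := univ) (s' := fun r => ((univ.biUnion r)ᶜ).powerset)] at h0
    · rw [← h0, sum_filter]
      refine sum_congr rfl fun r _ => ?_
      rw [← sum_smul, sum_powerset_neg_one_pow_card]
      have : (univ.biUnion r)ᶜ = ∅ ↔ ∀ i, ∃ j, i ∈ r j := by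
        rw [compl_eq_empty_iff, eq_univ_iff_forall]; simp
      by_cases h : ∀ i, ∃ j, i ∈ r j
      · rw [if_pos h, if_pos (this.2 h), one_smul]
      · rw [if_neg h, if_neg (fun h' => h (this.1 h')), zero_smul]
    · intro C r
      simp only [mem_univ, true_and, and_true, Fintype.mem_piFinset, mem_powerset,
        subset_compl_iff_disjoint_right, disjoint_biUnion_right, forall_const]
      exact forall_congr' fun j => disjoint_comm
  have hinj : Function.Injective
      (fun (σ : Equiv.Perm (Fin q)) (j : Fin q) => ({σ j} : Finset (Fin q))) := by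
    intro σ τ h
    ext j
    have := congrFun h j
    simp only [singleton_inj] at this
    rw [this]
  have hsub : univ.image (fun (σ : Equiv.Perm (Fin q)) (j : Fin q) => ({σ j} : Finset (Fin q)))
      ⊆ univ.filter (fun r : Fin q → Finset (Fin q) => ∀ i, ∃ j, i ∈ r j) := by
    intro r hr
    obtain ⟨σ, _, rfl⟩ := mem_image.1 hr
    refine mem_filter.2 ⟨mem_univ _, fun i => ⟨σ.symm i, by simp⟩⟩
  rw [← sum_sdiff hsub, sum_image (fun σ _ τ _ h => hinj h)] at hcov
  have h1 : ∑ σ : Equiv.Perm (Fin q), M (fun j => b {σ j}) ∈ F (∑ i, d i + 1) := by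
    rw [eq_neg_of_add_eq_zero_right hcov]
    refine neg_mem (sum_mem fun r hr => ?_)
    obtain ⟨hr1, hr2⟩ := mem_sdiff.1 hr
    refine hanti _ _ (cover_weight d hd r (mem_filter.1 hr1).2 fun σ e => hr2 ?_)
      (prodF F hmul hone q _ _ fun j => hbF (r j))
    exact mem_image.2 ⟨σ, mem_univ _, e.symm⟩
  have h2 : ∑ σ : Equiv.Perm (Fin q), (M (fun j => b {σ j}) - (List.ofFn fun j => a (σ j)).prod)
      ∈ F (∑ i, d i + 1) := by
    refine sum_mem fun σ _ => ?_
    rw [← Equiv.sum_comp σ d]
    refine prodC F hmul hone q _ _ _ (fun j => ?_) (fun j => hn _) (fun j => ?_)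
    · simpa using hbF {σ j}
    · have := hmul _ _ _ _ hx (hn (σ j))
      rw [add_comm] at this
      have e : b {σ j} - a (σ j) = (x - 1) * a (σ j) := by
        simp only [hb, haT1, singleton_ne_empty, if_false]
        noncomm_ring
      rw [e]; exact this
  have := sub_mem h1 h2
  rwa [sum_sub_distrib, sub_sub_cancel] at this

end Pool.Agent.MP_3312ae_al.HR.C1
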