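import Mathlib

/-! A ring generated by a nilpotent Lie ring with nilpotent commutators is nilpotent. -/

set_option autoImplicit false

namespace Pool.Agent.MP_3312ae_al.HR.C1

variable {ι : Type}

/-- Right-nested ring commutators. -/
def rc {B : Type} [Ring B] (a : ι → B) (l : List ι) (i : ι) : B :=
  l.foldr (fun j z => a j * z - z * a j) (a i)

theorem rc_map {B B' : Type} [Ring B] [Ring B'] (φ : B →+* B') (a : ι → B) (l : List ι) (i : ι) :
    rc (fun j => φ (a j)) l i = φ (rc a l i) := by
  induction l with
  | nil => rfl
  | cons j l ih =>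
    change φ (a j) * rc (fun j => φ (a j)) l i - rc (fun j => φ (a j)) l i * φ (a j)
      = φ (a j * rc a l i - rc a l i * a j)
    rw [ih, map_sub, map_mul, map_mul]

theorem words_central {U : Type} [Ring U] (a : ι → U) (s : U) (hc : ∀ z, Commute s z) (n : ℕ)
    (h : ∀ w : List ι, w.length = n → ∃ u, (w.map a).prod = u * s) (m : ℕ) :
    ∀ w : List ι, w.length = n * m → ∃ u, (w.map a).prod = u * s ^ m := by
  induction m with
  | zero => intro w _; exact ⟨(w.map a).prod, by simp⟩
  | succ m ih =>
    intro w hw
    obtain ⟨u, hu⟩ := h (w.take n) (by rw [List.length_take, hw, Nat.mul_succ]; omega)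
    obtain ⟨v, hv⟩ := ih (w.drop n) (by rw [List.length_drop, hw, Nat.mul_succ]; omega)
    refine ⟨u * v, ?_⟩
    rw [← List.take_append_drop n w, List.map_append, List.prod_append, hu, hv, pow_succ',
      mul_assoc, ← mul_assoc s, (hc v).eq]
    noncomm_ring

theorem words_nil [Finite ι] (c : ℕ) : ∀ (B : Type) [Ring B] (a : ι → B),
    (∀ l i, IsNilpotent (rc a l i)) → (∀ l i, l.length = c → rc a l i = 0) →
    ∃ n, ∀ w : List ι, w.length = n → (w.map a).prod = 0 := by
  classical
  induction c with
  | zero =>
    intro B _ a _ h
    refine ⟨1, fun w hw => ?_⟩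
    obtain ⟨i, rfl⟩ := List.length_eq_one_iff.1 hw
    simpa [rc] using h [] i rfl
  | succ c ihc =>
    have key : ∀ (S : Finset (List ι × ι)) (B : Type) [Ring B] (a : ι → B),
        (∀ l i, IsNilpotent (rc a l i)) → (∀ l i, l.length = c + 1 → rc a l i = 0) →
        (∀ l i, l.length = c → (l, i) ∉ S → rc a l i = 0) →
        ∃ n, ∀ w : List ι, w.length = n → (w.map a).prod = 0 := by
      intro S
      induction S using Finset.induction_on with
      | empty =>
        intro B _ a h1 _ h3
        exact ihc B a h1 fun l i hl => h3 l i hl (Finset.notMem_empty _)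
      | insert x S _ ih =>
        intro B _ a h1 h2 h3
        obtain ⟨l₀, i₀⟩ := x
        by_cases hl₀ : l₀.length = c
        swap
        · refine ih B a h1 h2 fun l i hl hS => h3 l i hl fun hm => ?_
          rcases Finset.mem_insert.1 hm with e | e
          · exact hl₀ (by rw [← (Prod.mk.inj e).1, hl])
          · exact hS e
        set s := rc a l₀ i₀ with hs
        set U := Subring.centralizer ({s} : Set B) with hU
        have ha : ∀ i, a i ∈ U := by
          intro i z hz
          rw [Set.mem_singleton_iff.1 hz]
          have := h2 (i :: l₀) i₀ (by rw [List.length_cons, hl₀])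
          exact (sub_eq_zero.1 this).symm
        have hsU : s ∈ U := by
          intro z hz
          rw [Set.mem_singleton_iff.1 hz]
        set a' : ι → U := fun i => ⟨a i, ha i⟩ with ha'
        set s' : U := ⟨s, hsU⟩ with hs'
        have hc : ∀ z, Commute s' z := fun z => Subtype.ext (z.2 s rfl)
        have hrc : ∀ l i, U.subtype (rc a' l i) = rc a l i := fun l i =>
          (rc_map U.subtype a' l i).symm
        have hinj : Function.Injective U.subtype := Subtype.val_injective
        have : (Ideal.span {s'}).IsTwoSided := ⟨fun {x} y hx => by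
          obtain ⟨u, rfl⟩ := Ideal.mem_span_singleton'.1 hx
          exact Ideal.mem_span_singleton'.2 ⟨u * y, by rw [mul_assoc, ← (hc y).eq, mul_assoc]⟩⟩
        set π := Ideal.Quotient.mk (Ideal.span {s'}) with hπ
        have hz : ∀ l i, rc a l i = 0 → rc (fun j => π (a' j)) l i = 0 := by
          intro l i h
          rw [rc_map, hinj (a₁ := rc a' l i) (a₂ := 0) (by rw [hrc, h, map_zero]), map_zero]
        obtain ⟨n, hn⟩ := ih (U ⧸ Ideal.span {s'}) (fun j => π (a' j))
          (fun l i => by
            rw [rc_map]
            refine IsNilpotent.map ?_ π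
            rw [← IsNilpotent.map_iff hinj, hrc]
            exact h1 l i)
          (fun l i hl => hz l i (h2 l i hl))
          (fun l i hl hS => by
            by_cases e : (l, i) = (l₀, i₀)
            · obtain ⟨rfl, rfl⟩ := Prod.mk.inj e
              rw [rc_map, hinj (a₁ := rc a' l i) (a₂ := s') (hrc l i),
                Ideal.Quotient.eq_zero_iff_mem]
              exact Ideal.subset_span rfl
            · exact hz l i (h3 l i hl (by simp only [Finset.mem_insert, not_or]; exact ⟨e, hS⟩)))
        obtain ⟨m, hm⟩ := h1 l₀ i₀
        refine ⟨n * m, fun w hw => ?_⟩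
        obtain ⟨u, hu⟩ := words_central a' s' hc n (fun w hw => by
          have := hn w hw
          rw [show (fun j => π (a' j)) = π ∘ a' from rfl, ← List.map_map, ← map_list_prod,
            Ideal.Quotient.eq_zero_iff_mem] at this
          obtain ⟨u, hu⟩ := Ideal.mem_span_singleton'.1 this
          exact ⟨u, hu.symm⟩) m w hw
        have := congrArg U.subtype hu
        rw [map_list_prod, List.map_map, map_mul, map_pow] at this
        rw [show a = U.subtype ∘ a' from rfl, this]
        change _ * s ^ m = 0
        rw [hm, mul_zero]
    intro B _ a h1 h2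
    have hfin : ({l : List ι | l.length = c} ×ˢ (Set.univ : Set ι)).Finite :=
      (List.finite_length_eq ι c).prod Set.finite_univ
    refine key hfin.toFinset B a h1 h2 fun l i hl hS => (hS ?_).elim
    simpa using hl

end Pool.Agent.MP_3312ae_al.HR.C1
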