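import Mathlib

/-! Adding one element to a set on which a symmetric identity holds. -/

set_option autoImplicit false

namespace Pool.Agent.MP_3312ae_al.HR.C1

open Finset

variable {A : Type} [Ring A] {n : ℕ}

/-- Elements with vanishing squarefree coefficients. -/
def JS (A : Type) [Ring A] (n : ℕ) : Ideal (AddMonoidAlgebra A (Fin n → ℕ)) where
  carrier := {f | ∀ α : Fin n → ℕ, (∀ i, α i ≤ 1) → f.coeff α = 0}
  add_mem' := by
    intro f g hf hg α hα
    rw [AddMonoidAlgebra.coeff_add, Finsupp.add_apply, hf α hα, hg α hα, add_zero]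
  zero_mem' := by
    intro α _
    rfl
  smul_mem' := by
    intro f g hg α hα
    rw [smul_eq_mul, AddMonoidAlgebra.coeff_mul]
    refine sum_eq_zero fun β _ => sum_eq_zero fun γ _ => ?_
    dsimp only
    split_ifs with h
    · rw [hg γ (fun i => le_trans (by rw [← h]; simp) (hα i)), mul_zero]
    · rfl

instance : (JS A n).IsTwoSided where
  mul_mem_of_left := by
    intro f g hf α hα
    rw [AddMonoidAlgebra.coeff_mul]
    refine sum_eq_zero fun β _ => sum_eq_zero fun γ _ => ?_
    dsimp only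
    split_ifs with h
    · rw [hf β (fun i => le_trans (by rw [← h]; simp) (hα i)), zero_mul]
    · rfl

theorem prod_single (m : ℕ) : ∀ (α : Fin m → Fin n → ℕ) (z : Fin m → A),
    (List.ofFn fun j => AddMonoidAlgebra.single (α j) (z j)).prod
      = AddMonoidAlgebra.single (∑ j, α j) (List.ofFn z).prod := by
  induction m with
  | zero => intro α z; simp [AddMonoidAlgebra.one_def]
  | succ m ih =>
    intro α z
    rw [List.ofFn_succ, List.prod_cons, ih, AddMonoidAlgebra.single_mul_single,
      Fin.sum_univ_succ, List.ofFn_succ, List.prod_cons]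

theorem coeff_pow (T : Finset (Fin n)) (z : Fin n → A) (m : ℕ) (α : Fin n → ℕ) :
    ((∑ i ∈ T, AddMonoidAlgebra.single (Pi.single i 1 : Fin n → ℕ) (z i)) ^ m).coeff α
      = ∑ f ∈ (Fintype.piFinset fun _ : Fin m => T).filter
          (fun f => ∑ j, (Pi.single (f j) 1 : Fin n → ℕ) = α),
          (List.ofFn fun j => z (f j)).prod := by
  rw [← MultilinearMap.mkPiAlgebraFin_apply_const (R := ℤ), MultilinearMap.map_sum_finset,
    AddMonoidAlgebra.coeff_sum, Finsupp.finsetSum_apply, sum_filter]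
  refine sum_congr rfl fun f _ => ?_
  rw [MultilinearMap.mkPiAlgebraFin_apply, prod_single, AddMonoidAlgebra.coeff_single,
    Finsupp.single_apply]

theorem cnt_pos {m : ℕ} (f : Fin m → Fin n) (i : Fin n) :
    (∑ j, (Pi.single (f j) 1 : Fin n → ℕ)) i ≠ 0 ↔ ∃ j, f j = i := by
  rw [Finset.sum_apply, Ne, sum_eq_zero_iff]
  push Not
  refine exists_congr fun j => ?_
  by_cases h : f j = i
  · simp [h]
  · simp [h]

theorem coeff_pow_inj (T : Finset (Fin n)) (z : Fin n → A) (m : ℕ) (f : Fin m → Fin n)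
    (hf : Function.Injective f) (hT : ∀ j, f j ∈ T) :
    ((∑ i ∈ T, AddMonoidAlgebra.single (Pi.single i 1 : Fin n → ℕ) (z i)) ^ m).coeff
        (∑ j, (Pi.single (f j) 1 : Fin n → ℕ))
      = ∑ σ : Equiv.Perm (Fin m), (List.ofFn fun j => z (f (σ j))).prod := by
  rw [coeff_pow]
  symm
  refine sum_bij (fun σ _ => fun j => f (σ j)) (fun σ _ => ?_) (fun σ _ τ _ h => ?_)
    (fun g hg => ?_) (fun σ _ => rfl)
  · refine mem_filter.2 ⟨Fintype.mem_piFinset.2 fun j => hT _, ?_⟩
    exact Equiv.sum_comp σ (fun j => (Pi.single (f j) 1 : Fin n → ℕ))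
  · ext j
    rw [hf (congrFun h j)]
  · have h := (mem_filter.1 hg).2
    have h1 : ∀ j, ∃ j', f j' = g j := fun j =>
      (cnt_pos f (g j)).1 (by rw [← h]; exact (cnt_pos g (g j)).2 ⟨j, rfl⟩)
    choose s hs using h1
    have hsurj : Function.Surjective s := by
      intro j'
      obtain ⟨j, hj⟩ := (cnt_pos g (f j')).1 (by rw [h]; exact (cnt_pos f (f j')).2 ⟨j', rfl⟩)
      exact ⟨j, hf (by rw [hs, hj])⟩
    exact ⟨Equiv.ofBijective s (Finite.surjective_iff_bijective.1 hsurj), mem_univ _,
      funext fun j => hs j⟩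

theorem cnt_inj {m : ℕ} (f : Fin m → Fin n)
    (h : ∀ i, (∑ j, (Pi.single (f j) 1 : Fin n → ℕ)) i ≤ 1) : Function.Injective f := by
  intro j j' e
  by_contra hne
  have h1 := h (f j)
  rw [Finset.sum_apply] at h1
  have h2 := sum_le_sum_of_subset (f := fun l => (Pi.single (f l) 1 : Fin n → ℕ) (f j))
    (subset_univ {j, j'})
  rw [sum_pair hne, ← e, Pi.single_eq_same] at h2
  omega

theorem pow_mem_JS (T : Finset (Fin n)) (z : Fin n → A) (m : ℕ)
    (h : ∀ f : Fin m → Fin n, (∀ j, f j ∈ T) →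
      ∑ σ : Equiv.Perm (Fin m), (List.ofFn fun j => z (f (σ j))).prod = 0) :
    (∑ i ∈ T, AddMonoidAlgebra.single (Pi.single i 1 : Fin n → ℕ) (z i)) ^ m ∈ JS A n := by
  intro α hα
  by_cases hex : ∃ f : Fin m → Fin n, (∀ j, f j ∈ T) ∧ ∑ j, (Pi.single (f j) 1 : Fin n → ℕ) = α
  · obtain ⟨f, hT, rfl⟩ := hex
    rw [coeff_pow_inj T z m f (cnt_inj f hα) hT, h f hT]
  · rw [coeff_pow]
    refine sum_eq_zero fun f hf => (hex ⟨f, ?_, (mem_filter.1 hf).2⟩).elim
    exact Fintype.mem_piFinset.1 (mem_filter.1 hf).1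

theorem nil_add {Q : Type} [Ring Q] (H e c : Q) (q p : ℕ) (hH : H ^ q = 0) (he : e ^ p = 0)
    (hc : ∀ z, Commute e z) : (H + e * c) ^ (q * p) = 0 := by
  have h : ∀ m : ℕ, ∃ Z, (H + e * c) ^ m = H ^ m + e * Z := by
    intro m
    induction m with
    | zero => exact ⟨0, by simp⟩
    | succ m ih =>
      obtain ⟨Z, hZ⟩ := ih
      refine ⟨H ^ m * c + Z * (H + e * c), ?_⟩
      rw [pow_succ, hZ, pow_succ, add_mul, mul_add, ← mul_assoc (H ^ m), ← (hc (H ^ m)).eq]
      noncomm_ring
  obtain ⟨Z, hZ⟩ := h q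
  rw [pow_mul, hZ, hH, zero_add, (hc Z).mul_pow, he, zero_mul]

theorem sym_add (p q : ℕ) (hp0 : p ≠ 0) (hp : (p : A) = 0) (V : Set A) (c : A)
    (hV : ∀ v : Fin q → A, (∀ j, v j ∈ V) →
      ∑ σ : Equiv.Perm (Fin q), (List.ofFn fun j => v (σ j)).prod = 0)
    (y : Fin (q * p) → A) (hy : ∀ i, y i ∈ V ∨ y i = c) :
    ∑ σ : Equiv.Perm (Fin (q * p)), (List.ofFn fun j => y (σ j)).prod = 0 := by
  classical
  set T : Finset (Fin (q * p)) := univ.filter fun i => y i ∈ V with hT
  set π := Ideal.Quotient.mk (JS A (q * p)) with hπ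
  have h1 := pow_mem_JS T y q fun f hf => hV (fun j => y (f j)) fun j => (mem_filter.1 (hf j)).2
  have h2 := pow_mem_JS (A := A) Tᶜ (fun _ => 1) p fun f _ => by
    obtain ⟨k, hk⟩ := Nat.dvd_factorial (Nat.pos_of_ne_zero hp0) le_rfl
    simp [Fintype.card_perm, hk, hp]
  have h3 : ∑ i, AddMonoidAlgebra.single (Pi.single i 1 : Fin (q * p) → ℕ) (y i)
      = ∑ i ∈ T, AddMonoidAlgebra.single (Pi.single i 1 : Fin (q * p) → ℕ) (y i)
        + (∑ i ∈ Tᶜ, AddMonoidAlgebra.single (Pi.single i 1 : Fin (q * p) → ℕ) (1 : A))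
          * AddMonoidAlgebra.single 0 c := by
    rw [← sum_add_sum_compl T, sum_mul]
    congr 1
    refine sum_congr rfl fun i hi => ?_
    rw [AddMonoidAlgebra.single_mul_single, add_zero, one_mul]
    rcases hy i with h | h
    · exact (mem_compl.1 hi (mem_filter.2 ⟨mem_univ _, h⟩)).elim
    · rw [h]
  have h4 : (∑ i, AddMonoidAlgebra.single (Pi.single i 1 : Fin (q * p) → ℕ) (y i)) ^ (q * p)
      ∈ JS A (q * p) := by
    rw [← Ideal.Quotient.eq_zero_iff_mem, map_pow, h3, map_add, map_mul]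
    refine nil_add _ _ _ q p ?_ ?_ fun z => ?_
    · rw [← map_pow, Ideal.Quotient.eq_zero_iff_mem]; exact h1
    · rw [← map_pow, Ideal.Quotient.eq_zero_iff_mem]; exact h2
    · obtain ⟨z, rfl⟩ := Ideal.Quotient.mk_surjective z
      refine Commute.map (Commute.sum_left _ _ _ fun i _ => ?_) _
      exact AddMonoidAlgebra.single_commute (fun _ => AddCommute.all _ _) Commute.one_left z
  have h5 := coeff_pow_inj univ y (q * p) id Function.injective_id (fun _ => mem_univ _)
  rw [h4 _ (fun i => ?_)] at h5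
  · exact h5.symm
  · simp [Finset.sum_apply, Pi.single_apply]

/-- A multilinear map vanishing on a spanning set vanishes. -/
theorem multilinear_zero {k L W : Type} [CommRing k] [AddCommGroup L] [Module k L]
    [AddCommGroup W] [Module k W] (f : MultilinearMap k (fun _ : Fin n => L) W) (s : Set L)
    (hs : Submodule.span k s = ⊤) (h : ∀ y : Fin n → L, (∀ i, y i ∈ s) → f y = 0)
    (y : Fin n → L) : f y = 0 := by
  have key : ∀ (T : Finset (Fin n)) (y : Fin n → L), (∀ i, i ∉ T → y i ∈ s) → f y = 0 := by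
    intro T
    induction T using Finset.induction_on with
    | empty => intro y hy; exact h y fun i => hy i (notMem_empty i)
    | insert i T _ ih =>
      intro y hy
      have : ∀ x ∈ Submodule.span k s, f (Function.update y i x) = 0 := by
        intro x hx
        induction hx using Submodule.span_induction with
        | mem x hx =>
          refine ih _ fun j hj => ?_
          by_cases e : j = i
          · subst e; rwa [Function.update_self]
          · rw [Function.update_of_ne e]; exact hy j (by simp [e, hj])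
        | zero => exact f.map_update_zero y i
        | add a b _ _ ha hb => rw [f.map_update_add, ha, hb, add_zero]
        | smul c a _ ha => rw [f.map_update_smul, ha, smul_zero]
      have := this (y i) (by rw [hs]; trivial)
      rwa [Function.update_eq_self] at this
  exact key univ y fun i hi => absurd (mem_univ i) hi

end Pool.Agent.MP_3312ae_al.HR.C1
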