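import Pool.Agent.MP_3312ae_al.HR.Spec
import Pool.Agent.MP_3312ae_al.HR.C1.Gr
import Pool.Agent.MP_3312ae_al.HR.C1.Ident
import Pool.Agent.MP_3312ae_al.HR.C1.Sym
import Pool.Agent.MP_3312ae_al.HR.C1.Nil

/-! From the theorem on Lie algebras to the powers of the augmentation ideal. -/

set_option autoImplicit false

namespace Pool.Agent.MP_3312ae_al.HR.C1

open scoped commutatorElement

attribute [local instance 100] LieRing.ofAssociativeRing

theorem adList_eq (k : Type) [CommRing k] {L : Type} [LieRing L] [LieAlgebra k L] (ys : List L)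
    (x : L) : adList ys x = (ys.map (LieAlgebra.ad k L)).prod x := by
  induction ys with
  | nil => rfl
  | cons y ys ih =>
    rw [List.map_cons, List.prod_cons, Module.End.mul_apply, ← ih]
    rfl

theorem span_isComm (k : Type) [CommRing k] {L : Type} [LieRing L] [LieAlgebra k L] {ι : Type}
    (a : ι → L) (h : LieSubalgebra.lieSpan k L (Set.range a) = ⊤) :
    Submodule.span k {x | IsComm a x} = ⊤ := by
  rw [eq_top_iff]
  intro x hx0
  have hx : x ∈ LieSubalgebra.lieSpan k L (Set.range a) := by rw [h]; trivial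
  clear hx0
  induction hx using LieSubalgebra.lieSpan_induction with
  | mem x hx =>
    obtain ⟨i, rfl⟩ := hx
    exact Submodule.subset_span (IsComm.gen i)
  | zero => exact zero_mem _
  | add x y _ _ hx hy => exact add_mem hx hy
  | smul c x _ hx => exact Submodule.smul_mem _ _ hx
  | lie x y hx0 hy0 hx hy =>
    clear hx0 hy0
    induction hx using Submodule.span_induction with
    | mem x hx =>
      induction hy using Submodule.span_induction with
      | mem y hy => exact Submodule.subset_span (IsComm.br hx hy)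
      | zero => rw [lie_zero]; exact zero_mem _
      | add u v _ _ hu hv => rw [lie_add]; exact add_mem hu hv
      | smul c u _ hu => rw [lie_smul]; exact Submodule.smul_mem _ _ hu
    | zero => rw [zero_lie]; exact zero_mem _
    | add u v _ _ hu hv => rw [add_lie]; exact add_mem hu hv
    | smul c u _ hu => rw [smul_lie]; exact Submodule.smul_mem _ _ hu

section
variable (k : Type) [CommRing k] {R : Type} [Ring R] [Algebra k R] {Γ : Type} [Group Γ]

/-- The conjugation representation. -/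
def cj (ρ : Γ →* R) : Γ →* Module.End k R where
  toFun g := LinearMap.mulLeftRight k (ρ g, ρ g⁻¹)
  map_one' := by ext u; simp
  map_mul' g h := by ext u; simp [mul_assoc]

theorem cj_apply (ρ : Γ →* R) (g : Γ) (u : R) : cj k ρ g u = ρ g * u * ρ g⁻¹ :=
  LinearMap.mulLeftRight_apply _ _ _

/-- Endomorphisms raising the `I`-adic degree. -/
def FE (I : Ideal R) (d : ℕ) : AddSubgroup (Module.End k R) where
  carrier := {φ | ∀ j u, u ∈ I ^ j → φ u ∈ I ^ (j + d)}
  add_mem' := fun hφ hψ j u hu => add_mem (hφ j u hu) (hψ j u hu)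
  zero_mem' := fun _ _ _ => zero_mem _
  neg_mem' := fun hφ j u hu => neg_mem (hφ j u hu)

variable {k}

theorem Ld.cj {I : Ideal R} [I.IsTwoSided] (ρ : Γ →* R) (hI : ∀ g, ρ g - 1 ∈ I) {i j : ℕ} {g : Γ}
    {u : R} {b c : Gr k I} (h : Ld k I i (ρ g - 1) b) (h' : Ld k I j u c) :
    Ld k I (i + j) ((C1.cj k ρ g - 1) u) (b * c - c * b) := by
  rw [LinearMap.sub_apply, cj_apply]
  exact Ld.conj (by rw [← map_mul, mul_inv_cancel, map_one]) (hI g⁻¹) h h'

theorem cj_mem {I : Ideal R} [I.IsTwoSided] (ρ : Γ →* R) (hI : ∀ g, ρ g - 1 ∈ I) {i : ℕ} {g : Γ}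
    (h : ρ g - 1 ∈ I ^ i) : cj k ρ g - 1 ∈ FE k I i := by
  intro j u hu
  obtain ⟨b, hb⟩ := ld_ex (k := k) h
  obtain ⟨c, hc⟩ := ld_ex (k := k) hu
  rw [add_comm]
  exact (hb.cj ρ hI hc).mem

end

theorem sym_high {p : ℕ} [Fact p.Prime] {Γ : Type} [Group Γ] (y : Γ) (N : Subgroup Γ) (e : ℕ)
    (hq : ∀ n ∈ N, (y * n) ^ p ^ e = 1) {R : Type} [Ring R] [Algebra (ZMod p) R] (ρ : Γ →* R)
    (I : Ideal R) [I.IsTwoSided] (hI : ∀ g, ρ g - 1 ∈ I)
    (L : LieSubalgebra (ZMod p) (Gr (ZMod p) I)) (x : Fin (p ^ e) → L) (h : Fin (p ^ e) → Γ)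
    (hN : ∀ j, h j ∈ N) (d : Fin (p ^ e) → ℕ) (hd : ∀ j, 1 ≤ d j)
    (hx : ∀ j, Ld (ZMod p) I (d j) (ρ (h j) - 1) (x j)) (z : L) {m : ℕ} {u : R}
    (hz : Ld (ZMod p) I m u z) :
    (∑ σ : Equiv.Perm (Fin (p ^ e)),
      (List.ofFn fun j => LieAlgebra.ad (ZMod p) L (x (σ j))).prod) z = 0 := by
  have hid := ident (FE (ZMod p) I)
    (fun i j hij φ hφ l u hu => ple I (Nat.add_le_add_left hij l) (hφ l u hu))
    (fun i j φ ψ hφ hψ l u hu => by
      rw [add_comm i j, ← add_assoc]
      exact hφ _ _ (hψ l u hu))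
    (fun _ _ hu => hu) (p ^ e) (cj (ZMod p) ρ y) (cj_mem ρ hI (pone I (hI y)))
    (fun j => cj (ZMod p) ρ (h j)) d hd (fun j => cj_mem ρ hI (hx j).mem) (fun S => by
      have e1 : (List.ofFn fun i => if i ∈ S then cj (ZMod p) ρ (h i) else 1).prod
          = cj (ZMod p) ρ (List.ofFn fun i => if i ∈ S then h i else 1).prod := by
        rw [map_list_prod, List.map_ofFn]
        congr 2
        funext i
        simp only [Function.comp_apply]
        split_ifs
        · rfl
        · rw [map_one]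
      rw [e1, ← map_mul, sub_one_pow, ← map_pow, hq, map_one, sub_self]
      refine list_prod_mem fun g hg => ?_
      obtain ⟨i, rfl⟩ := List.mem_ofFn.1 hg
      split_ifs
      · exact hN i
      · exact one_mem _)
  have hl : ∀ l : List (Fin (p ^ e)), Ld (ZMod p) I ((l.map d).sum + m)
      ((l.map fun j => cj (ZMod p) ρ (h j) - 1).prod u)
      (((l.map fun j => LieAlgebra.ad (ZMod p) L (x j)).prod z : L) : Gr (ZMod p) I) := by
    intro l
    induction l with
    | nil => simpa using hz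
    | cons j l ih =>
      simp only [List.map_cons, List.prod_cons, List.sum_cons, Module.End.mul_apply, add_assoc]
      exact (hx j).cj ρ hI ih
  have hs := ld_sum (k := ZMod p) (I := I) Finset.univ (i := ∑ j, d j + m)
    (u := fun σ : Equiv.Perm (Fin (p ^ e)) =>
      (List.ofFn fun j => cj (ZMod p) ρ (h (σ j)) - 1).prod u)
    (b := fun σ => (((List.ofFn fun j => LieAlgebra.ad (ZMod p) L (x (σ j))).prod z : L) :
      Gr (ZMod p) I)) (fun σ _ => by
      have := hl (List.ofFn σ)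
      rw [List.map_ofFn, List.map_ofFn, List.map_ofFn, List.sum_ofFn] at this
      rw [← Equiv.sum_comp σ d]
      exact this)
  have h0 := hs.zero_iff.2 (by
    have := hid m u hz.mem
    rw [LinearMap.sum_apply, ← add_assoc, add_comm m] at this
    exact this)
  rw [LinearMap.sum_apply]
  apply Subtype.ext
  rw [AddSubmonoidClass.coe_finsetSum]
  exact h0

theorem core (hZ : ThmZ) {p : ℕ} [hp : Fact p.Prime] {Γ : Type} [Group Γ] (hΓ : IsPGroup p Γ)
    {r : ℕ} (g : Fin r → Γ) (i₀ : Fin r) (N : Subgroup Γ) (hcomm : ∀ a b : Γ, ⁅a, b⁆ ∈ N)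
    (hg : ∀ i, g i = g i₀ ∨ g i ∈ N) (e : ℕ) (hq : ∀ n ∈ N, (g i₀ * n) ^ p ^ e = 1)
    {R : Type} [Ring R] [Algebra (ZMod p) R] (ρ : Γ →* R) (I : Ideal R) [I.IsTwoSided]
    (hI : ∀ g, ρ g - 1 ∈ I) :
    ∃ n, ∀ w : List (Fin r), w.length = n → (w.map fun i => ρ (g i) - 1).prod ∈ I ^ (n + 1) := by
  choose b hb using fun i => ld_ex (k := ZMod p) (pone I (hI (g i)))
  set L := LieSubalgebra.lieSpan (ZMod p) (Gr (ZMod p) I) (Set.range b) with hL
  set a : Fin r → L := fun i => ⟨b i, LieSubalgebra.subset_lieSpan ⟨i, rfl⟩⟩ with ha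
  have hgen : LieSubalgebra.lieSpan (ZMod p) L (Set.range a) = ⊤ := by
    rw [← LieSubalgebra.lieSpan_lieSpan_coe_preimage]
    congr 1
    ext x
    constructor
    · rintro ⟨i, rfl⟩; exact ⟨i, rfl⟩
    · rintro ⟨i, hi⟩; exact ⟨i, Subtype.ext hi⟩
  have hspan := span_isComm (ZMod p) a hgen
  have hC : ∀ x : L, IsComm a x → ∃ (h : Γ) (d : ℕ), 1 ≤ d ∧ Ld (ZMod p) I d (ρ h - 1) x ∧
      (x = a i₀ ∨ h ∈ N) := by
    intro x hx
    induction hx with
    | gen i =>
      refine ⟨g i, 1, le_rfl, hb i, (hg i).imp_left fun h => Subtype.ext ?_⟩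
      exact (hb i).unique (by rw [h]; exact hb i₀)
    | br _ _ ihx ihy =>
      obtain ⟨h, d, hd, hx, -⟩ := ihx
      obtain ⟨h', d', -, hy, -⟩ := ihy
      exact ⟨⁅h, h'⁆, d + d', le_trans hd (Nat.le_add_right _ _), Ld.comm ρ hI hx hy,
        Or.inr (hcomm _ _)⟩
  have hnil : ∀ x : L, IsComm a x → IsNilpotent (x : Gr (ZMod p) I) := by
    intro x hx
    obtain ⟨h, d, -, hx, -⟩ := hC x hx
    obtain ⟨m, hm⟩ := hΓ h
    have := hx.pow (p ^ m)
    rw [sub_one_pow, ← map_pow, hm, map_one, sub_self] at this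
    exact ⟨_, this.unique (ld_zero _)⟩
  have hE : LinEngel L (p ^ e * p) := by
    intro y x
    let f : MultilinearMap (ZMod p) (fun _ : Fin (p ^ e * p) => L) (Module.End (ZMod p) L) :=
      ∑ σ : Equiv.Perm (Fin (p ^ e * p)),
        ((MultilinearMap.mkPiAlgebraFin (ZMod p) (p ^ e * p) (Module.End (ZMod p) L)).compLinearMap
          fun _ => (LieAlgebra.ad (ZMod p) L).toLinearMap).domDomCongr σ
    have hf : ∀ y, f y = ∑ σ : Equiv.Perm (Fin (p ^ e * p)),
        (List.ofFn fun j => LieAlgebra.ad (ZMod p) L (y (σ j))).prod := by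
      intro y
      rw [sum_apply]
      rfl
    have h0 := multilinear_zero f _ hspan (fun y hy => by
      rw [hf]
      refine sym_add p (p ^ e) hp.out.ne_zero ?_
        {φ | ∃ (x : L) (h : Γ) (d : ℕ), φ = LieAlgebra.ad (ZMod p) L x ∧ h ∈ N ∧ 1 ≤ d ∧
          Ld (ZMod p) I d (ρ h - 1) x} (LieAlgebra.ad (ZMod p) L (a i₀)) (fun v hv => ?_)
        (fun i => LieAlgebra.ad (ZMod p) L (y i)) (fun i => ?_)
      · rw [← map_natCast (algebraMap (ZMod p) (Module.End (ZMod p) L)), ZMod.natCast_self,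
          map_zero]
      · choose x h d hv hN hd hx using hv
        refine LinearMap.ext_on hspan fun z hz => ?_
        obtain ⟨h', d', -, hz, -⟩ := hC z hz
        simp only [hv]
        exact sym_high (g i₀) N e hq ρ I hI L x h hN d hd hx z hz
      · obtain ⟨h, d, hd, hx, h1 | h1⟩ := hC _ (hy i)
        · exact Or.inr (by rw [h1])
        · exact Or.inl ⟨y i, h, d, rfl, h1, hd, hx⟩) y
    have := congrArg (fun φ : Module.End (ZMod p) L => φ x) h0
    simp only [hf, LinearMap.sum_apply, LinearMap.zero_apply] at this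
    rw [← this]
    refine Finset.sum_congr rfl fun σ _ => ?_
    rw [adList_eq (ZMod p), List.map_ofFn]
    rfl
  have hN := hZ p L r _ a hgen hE (fun x hx => by
    obtain ⟨m, hm⟩ := LieAlgebra.isNilpotent_ad_of_isNilpotent (hnil x hx)
    refine ⟨m, fun z => ?_⟩
    rw [adList_eq (ZMod p), List.map_replicate, List.prod_replicate, hm, LinearMap.zero_apply])
  obtain ⟨c, hc⟩ := LieModule.IsNilpotent.nilpotent (ZMod p) L L
  have hrc : ∀ (l : List (Fin r)) (i : Fin r), ∃ x : L, IsComm a x ∧ (x : Gr (ZMod p) I) = rc b l i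
      ∧ x ∈ LieModule.lowerCentralSeries (ZMod p) L L l.length := by
    intro l i
    induction l with
    | nil => exact ⟨a i, IsComm.gen i, rfl, by simp⟩
    | cons j l ih =>
      obtain ⟨x, h1, h2, h3⟩ := ih
      refine ⟨⁅a j, x⁆, IsComm.br (IsComm.gen j) h1, ?_, ?_⟩
      · change b j * x - x * b j = b j * rc b l i - rc b l i * b j
        rw [h2]
      · rw [List.length_cons, LieModule.lowerCentralSeries_succ]
        exact LieSubmodule.lie_mem_lie (LieSubmodule.mem_top _) h3
  obtain ⟨n, hn⟩ := words_nil c (Gr (ZMod p) I) b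
    (fun l i => by
      obtain ⟨x, h1, h2, -⟩ := hrc l i
      rw [← h2]; exact hnil x h1)
    (fun l i hl => by
      obtain ⟨x, -, h2, h3⟩ := hrc l i
      rw [hl, hc, LieSubmodule.mem_bot] at h3
      rw [← h2, h3]; rfl)
  refine ⟨n, fun w hw => ?_⟩
  have hw' : ∀ w : List (Fin r), Ld (ZMod p) I w.length (w.map fun i => ρ (g i) - 1).prod
      (w.map b).prod := by
    intro w
    induction w with
    | nil => exact ld_one
    | cons j w ih =>
      rw [List.map_cons, List.map_cons, List.prod_cons, List.prod_cons, List.length_cons, add_comm]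
      exact (hb j).mul ih
  rw [← hw]
  exact (hw' w).zero_iff.1 (hn w hw)

end Pool.Agent.MP_3312ae_al.HR.C1
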