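import Pool.Agent.MP_3312ae_al.HR.C1.Ident
import Pool.Agent.MP_3312ae_al.HR.Z30.Defs

/-! A coset identity gives the Higman law (recursive form) in the graded ring. -/

set_option autoImplicit false

namespace Pool.Agent.MP_3312ae_al.HR.C1

open Finset Z30

variable {A : Type} [Ring A] {s : ℕ}

/-- The union convolution powers. -/
def Wq (x : A) (a : Fin s → A) : ℕ → Finset (Fin s) → A
  | 0, S => if S = ∅ then 1 else 0
  | q + 1, S => ∑ P ∈ (univ : Finset (Finset (Fin s) × Finset (Fin s))) with P.1 ∪ P.2 = S,
      x * ordP a P.1 * Wq x a q P.2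

theorem ordP_add_one (a : Fin s → A) (S : Finset (Fin s)) :
    ordP (fun i => a i + 1) S = ∑ T ∈ S.powerset, ordP a T :=
  (MultilinearMap.mkPiAlgebraFin ℤ s A).map_piecewise_add a 1 S

theorem sum_Wq (x : A) (a : Fin s → A) (q : ℕ) (S : Finset (Fin s)) :
    ∑ C ∈ S.powerset, Wq x a q C = (x * ordP (fun i => a i + 1) S) ^ q := by
  induction q with
  | zero =>
    simp only [Wq]
    rw [sum_ite_eq' S.powerset ∅, if_pos (empty_mem_powerset S), pow_zero]
  | succ q ih =>
    simp only [Wq]
    rw [pow_succ', ← ih, ordP_add_one, mul_sum S.powerset (ordP a), sum_mul_sum, ← sum_product',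
      ← sum_fiberwise_of_maps_to (s := S.powerset ×ˢ S.powerset) (t := S.powerset)
        (g := fun P => P.1 ∪ P.2)]
    · refine sum_congr rfl fun C hC => sum_congr ?_ fun _ _ => rfl
      ext P
      simp only [mem_filter, mem_univ, true_and, mem_product, mem_powerset] at hC ⊢
      constructor
      · intro h
        exact ⟨⟨(h ▸ subset_union_left).trans hC, (h ▸ subset_union_right).trans hC⟩, h⟩
      · exact fun h => h.2
    · intro P hP
      simp only [mem_product, mem_powerset] at hP ⊢
      exact union_subset hP.1 hP.2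

theorem Wq_eq_zero (x : A) (a : Fin s → A) (q : ℕ)
    (h : ∀ S, (x * ordP (fun i => a i + 1) S) ^ q = 1) (S : Finset (Fin s)) (hS : S.Nonempty) :
    Wq x a q S = 0 := by
  have h0 : Wq x a q ∅ = 1 := by
    have := sum_Wq x a q ∅
    rwa [powerset_empty, sum_singleton, h] at this
  induction S using Finset.strongInduction with
  | H S ih =>
    have h1 := sum_Wq x a q S
    rw [h, sum_eq_add_of_mem ∅ S (empty_mem_powerset S) (mem_powerset_self S) hS.ne_empty.symm,
      h0] at h1
    · simpa using h1
    · intro C hC hne
      exact ih C ((mem_powerset.1 hC).ssubset_of_ne hne.2) (nonempty_iff_ne_empty.2 hne.1)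

theorem ident3 (F : ℕ → AddSubgroup A) (hanti : ∀ i j, i ≤ j → F j ≤ F i)
    (hmul : ∀ i j u v, u ∈ F i → v ∈ F j → u * v ∈ F (i + j)) (hone : (1 : A) ∈ F 0)
    (x : A) (hx : x - 1 ∈ F 1) (a : Fin s → A) (d : Fin s → ℕ)
    (hd : ∀ i, 1 ≤ d i) (ha : ∀ i, a i ∈ F (d i)) (q : ℕ) :
    ∀ S, Wq x a q S ∈ F (∑ i ∈ S, d i) ∧ Wq x a q S - Tq a q S ∈ F (∑ i ∈ S, d i + 1) := by
  have hx0 : x ∈ F 0 := by
    have := add_mem (hanti 0 1 (Nat.zero_le _) hx) hone
    rwa [sub_add_cancel] at this
  have haF : ∀ T, ordP a T ∈ F (∑ i ∈ T, d i) := by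
    intro T
    have := prodF F hmul hone s (fun i => if i ∈ T then a i else 1)
      (fun i => if i ∈ T then d i else 0) (by
        intro j
        split_ifs
        · exact ha j
        · exact hone)
    rwa [sum_ite_mem, univ_inter] at this
  have hbF : ∀ T, x * ordP a T ∈ F (∑ i ∈ T, d i) := by
    intro T
    have := hmul _ _ _ _ hx0 (haF T)
    rwa [zero_add] at this
  induction q with
  | zero =>
    intro S
    simp only [Wq, Tq, sub_self, zero_mem, and_true]
    split_ifs with h
    · rw [h]; exact hone
    · exact zero_mem _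
  | succ q ih =>
    intro S
    simp only [Wq, Tq]
    constructor
    · refine sum_mem fun P hP => hanti _ _ ?_ (hmul _ _ _ _ (hbF P.1) (ih P.2).1)
      rw [← (mem_filter.1 hP).2, ← sum_union_inter]
      exact Nat.le_add_right _ _
    · rw [← sum_filter_add_sum_filter_not _ (fun P : Finset (Fin s) × Finset (Fin s) => Disjoint P.1 P.2), add_sub_right_comm]
      refine add_mem ?_ (sum_mem fun P hP => hanti _ _ ?_ (hmul _ _ _ _ (hbF P.1) (ih P.2).1))
      · rw [sum_bij' (t := S.powerset) (g := fun B => x * ordP a B * Wq x a q (S \ B))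
          (fun P _ => P.1) (fun B _ => (B, S \ B)), ← sum_sub_distrib]
        · refine sum_mem fun B hB => ?_
          have e : x * ordP a B * Wq x a q (S \ B) - ordP a B * Tq a q (S \ B)
              = (x - 1) * ordP a B * Wq x a q (S \ B)
                + ordP a B * (Wq x a q (S \ B) - Tq a q (S \ B)) := by noncomm_ring
          rw [e, ← sum_sdiff (mem_powerset.1 hB)]
          refine add_mem ?_ ?_
          · have := hmul _ _ _ _ (hmul _ _ _ _ hx (haF B)) (ih (S \ B)).1
            exact hanti _ _ (by omega) this
          · have := hmul _ _ _ _ (haF B) (ih (S \ B)).2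
            exact hanti _ _ (by omega) this
        · intro P hP
          simp only [mem_filter, mem_univ, true_and] at hP
          rw [mem_powerset, ← hP.1]; exact subset_union_left
        · intro B hB
          simp only [mem_filter, mem_univ, true_and]
          exact ⟨union_sdiff_of_subset (mem_powerset.1 hB), disjoint_sdiff⟩
        · intro P hP
          simp only [mem_filter, mem_univ, true_and] at hP
          rw [← hP.1, union_sdiff_cancel_left hP.2]
        · intro B _; rfl
        · intro P hP
          simp only [mem_filter, mem_univ, true_and] at hP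
          rw [← hP.1, union_sdiff_cancel_left hP.2]
      · simp only [mem_filter, mem_univ, true_and] at hP
        obtain ⟨i, hi⟩ := nonempty_iff_ne_empty.2 (mt disjoint_iff_inter_eq_empty.2 hP.2)
        rw [← hP.1, ← sum_union_inter]
        have := single_le_sum (f := d) (fun _ _ => Nat.zero_le _) hi
        have := hd i
        omega

theorem ordP_congr {a b : Fin s → A} {S : Finset (Fin s)} (h : ∀ i ∈ S, a i = b i) :
    ordP a S = ordP b S := by
  unfold ordP
  congr 2
  funext i
  split_ifs with hi
  · exact h i hi
  · rfl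

theorem Tq_congr {a b : Fin s → A} (q : ℕ) : ∀ {S : Finset (Fin s)}, (∀ i ∈ S, a i = b i) →
    Tq a q S = Tq b q S := by
  induction q with
  | zero => intro S _; rfl
  | succ q ih =>
    intro S h
    simp only [Tq]
    refine sum_congr rfl fun B hB => ?_
    rw [ordP_congr fun i hi => h i (mem_powerset.1 hB hi), ih fun i hi => h i (mem_sdiff.1 hi).1]

theorem Tq_update (K : Type) [CommRing K] [Algebra K A] (a : Fin s → A) (i : Fin s) (q : ℕ) :
    ∀ S : Finset (Fin s), i ∈ S → ∃ T : A →ₗ[K] A, ∀ c, Tq (Function.update a i c) q S = T c := by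
  induction q with
  | zero =>
    intro S hi
    exact ⟨0, fun c => if_neg (ne_empty_of_mem hi)⟩
  | succ q ih =>
    intro S hi
    have : ∀ B : Finset (Fin s), ∃ T : A →ₗ[K] A, ∀ c,
        ordP (Function.update a i c) B * Tq (Function.update a i c) q (S \ B) = T c := by
      intro B
      by_cases hB : i ∈ B
      · refine ⟨(LinearMap.mulRight K (Tq a q (S \ B))).comp
          ((MultilinearMap.mkPiAlgebraFin K s A).toLinearMap (fun l => if l ∈ B then a l else 1) i),
          fun c => ?_⟩
        rw [Tq_congr (b := a) q fun l hl => Function.update_of_ne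
          (by rintro rfl; exact (mem_sdiff.1 hl).2 hB) _ _]
        simp only [LinearMap.comp_apply, MultilinearMap.toLinearMap_apply,
          MultilinearMap.mkPiAlgebraFin_apply, LinearMap.mulRight_apply, ordP]
        congr 3
        funext l
        by_cases hl : l = i
        · subst hl; simp [hB]
        · simp [Function.update_of_ne hl]
      · obtain ⟨T, hT⟩ := ih (S \ B) (mem_sdiff.2 ⟨hi, hB⟩)
        refine ⟨(LinearMap.mulLeft K (ordP a B)).comp T, fun c => ?_⟩
        rw [ordP_congr (b := a) fun l hl => Function.update_of_ne (by rintro rfl; exact hB hl) _ _, hT]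
        rfl
    choose T hT using this
    exact ⟨∑ B ∈ S.powerset, T B, fun c => by
      simp only [Tq, hT, LinearMap.sum_apply]⟩

end Pool.Agent.MP_3312ae_al.HR.C1
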