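import Pool.Agent.MP_3312ae_al.HR.C1.Core
import Pool.Agent.MP_3312ae_al.HR.C1.Ident3

/-! The graded Lie algebra of a group with a coset identity satisfies the Higman law. -/

set_option autoImplicit false

namespace Pool.Agent.MP_3312ae_al.HR.C1

open scoped commutatorElement
open Z30

attribute [local instance 100] LieRing.ofAssociativeRing

theorem vanish_span {k L W : Type} [CommRing k] [AddCommGroup L] [Module k L]
    [AddCommGroup W] [Module k W] {n : ℕ} (f : (Fin n → L) → W) (S : Finset (Fin n))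
    (hf : ∀ y, ∀ i ∈ S, ∃ T : L →ₗ[k] W, ∀ c, f (Function.update y i c) = T c) (s : Fin n → Set L)
    (h : ∀ y : Fin n → L, (∀ i ∈ S, y i ∈ s i) → f y = 0)
    (y : Fin n → L) (hy : ∀ i, y i ∈ Submodule.span k (s i)) : f y = 0 := by
  have key : ∀ (T : Finset (Fin n)) (y : Fin n → L), (∀ i, y i ∈ Submodule.span k (s i)) →
      (∀ i ∈ S, i ∉ T → y i ∈ s i) → f y = 0 := by
    intro T
    induction T using Finset.induction_on with
    | empty => intro y _ hy; exact h y fun i hi => hy i hi (Finset.notMem_empty i)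
    | insert i T _ ih =>
      intro y hy0 hy
      by_cases hi : i ∈ S
      swap
      · exact ih y hy0 fun j hj hjT => hy j hj (by
          rw [Finset.mem_insert, not_or]; exact ⟨fun e => hi (e ▸ hj), hjT⟩)
      obtain ⟨U, hU⟩ := hf y i hi
      have h1 : Submodule.span k (s i) ≤ LinearMap.ker U := by
        refine Submodule.span_le.2 fun x hx => ?_
        change U x = 0
        rw [← hU]
        refine ih _ (fun j => ?_) fun j hjS hj => ?_
        · by_cases e : j = i
          · subst e; rw [Function.update_self]; exact Submodule.subset_span hx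
          · rw [Function.update_of_ne e]; exact hy0 j
        · by_cases e : j = i
          · subst e; rwa [Function.update_self]
          · rw [Function.update_of_ne e]; exact hy j hjS (by simp [e, hj])
      have := h1 (hy0 i)
      rwa [LinearMap.mem_ker, ← hU, Function.update_eq_self] at this
  exact key Finset.univ y hy fun i _ hi => absurd (Finset.mem_univ i) hi

theorem sub_one_pow' (K : Type) [Field K] {p : ℕ} [Fact p.Prime] [CharP K p] {A : Type} [Ring A]
    [Algebra K A] (u : A) (e : ℕ) : (u - 1) ^ p ^ e = u ^ p ^ e - 1 := by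
  rcases subsingleton_or_nontrivial A with hA | hA
  · exact Subsingleton.elim _ _
  · have : CharP A p := charP_of_injective_algebraMap (algebraMap K A).injective p
    rw [sub_pow_char_pow_of_commute p e (Commute.one_right u), one_pow]

section
variable {K : Type} [CommRing K] {R : Type} [Ring R] [Algebra K R] {I : Ideal R} [I.IsTwoSided]

theorem Ld.smul {i : ℕ} {u : R} {b : Gr K I} (h : Ld K I i u b) (c : K) :
    Ld K I i (c • u) (c • b) := by
  obtain ⟨hu, rfl⟩ := h
  refine ⟨by rw [Algebra.smul_def]; exact Ideal.mul_mem_left _ _ hu, ?_⟩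
  rw [← Ideal.Quotient.mkₐ_eq_mk K, ← map_smul]
  congr 1
  exact Subtype.ext (Polynomial.smul_monomial c i u)

theorem ld_indep (s : Finset ℕ) (u : ℕ → R) (b : ℕ → Gr K I) (h : ∀ i ∈ s, Ld K I i (u i) (b i))
    (h0 : ∑ i ∈ s, b i = 0) : ∀ i ∈ s, b i = 0 := by
  intro i hi
  rw [(h i hi).zero_iff]
  have e : ∑ j ∈ s, b j = Ideal.Quotient.mk (JJ K I)
      (∑ j ∈ s.attach, ⟨Polynomial.monomial j.1 (u j), mono_mem K I (h j.1 j.2).mem⟩) := by
    rw [map_sum, ← Finset.sum_attach]
    exact Finset.sum_congr rfl fun j _ => (h j.1 j.2).2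
  rw [e, Ideal.Quotient.eq_zero_iff_mem] at h0
  have := h0 i
  rw [AddSubmonoidClass.coe_finsetSum, Finset.sum_attach s fun j => Polynomial.monomial j (u j),
    Polynomial.finsetSum_coeff] at this
  simpa [Polynomial.coeff_monomial, hi] using this

/-- `φ` is induced by `Φ` in degree `d`. -/
def Rel (L : LieSubalgebra K (Gr K I)) (d : ℕ) (Φ : Module.End K R) (φ : Module.End K L) : Prop :=
  ∀ m u (z : L), Ld K I m u z → Ld K I (m + d) (Φ u) (φ z : L)

theorem rel_prod (L : LieSubalgebra K (Gr K I)) : ∀ (n : ℕ) (d : Fin n → ℕ)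
    (Φ : Fin n → Module.End K R) (φ : Fin n → Module.End K L), (∀ i, Rel L (d i) (Φ i) (φ i)) →
    Rel L (∑ i, d i) (List.ofFn Φ).prod (List.ofFn φ).prod := by
  intro n
  induction n with
  | zero => intro d Φ φ _ m u z hz; simpa using hz
  | succ n ih =>
    intro d Φ φ h m u z hz
    rw [List.ofFn_succ, List.ofFn_succ, List.prod_cons, List.prod_cons, Fin.sum_univ_succ,
      add_comm (d 0), ← add_assoc]
    exact h 0 _ _ _ (ih _ _ _ (fun i => h i.succ) m u z hz)

theorem rel_Tq (L : LieSubalgebra K (Gr K I)) {s : ℕ} (d : Fin s → ℕ)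
    (Φ : Fin s → Module.End K R) (φ : Fin s → Module.End K L) (h : ∀ i, Rel L (d i) (Φ i) (φ i))
    (q : ℕ) : ∀ S, Rel L (∑ i ∈ S, d i) (Tq Φ q S) (Tq φ q S) := by
  have ho : ∀ B, Rel L (∑ i ∈ B, d i) (ordP Φ B) (ordP φ B) := by
    intro B
    have := rel_prod L s (fun i => if i ∈ B then d i else 0) (fun i => if i ∈ B then Φ i else 1)
      (fun i => if i ∈ B then φ i else 1) (fun i => by
        split_ifs
        · exact h i
        · exact fun m u z hz => hz)
    rwa [Finset.sum_ite_mem, Finset.univ_inter] at this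
  induction q with
  | zero =>
    intro S m u z hz
    simp only [Tq]
    split_ifs with hS
    · rw [hS]; exact hz
    · exact ld_zero _
  | succ q ih =>
    intro S m u z hz
    simp only [Tq, LinearMap.sum_apply]
    rw [AddSubmonoidClass.coe_finsetSum]
    refine ld_sum _ fun B hB => ?_
    rw [← Finset.sum_sdiff (Finset.mem_powerset.1 hB), ← add_assoc]
    exact ho B _ _ _ (ih _ m u z hz)

end

theorem tq_high {K : Type} [Field K] {Γ : Type} [Group Γ] (y : Γ) (N : Subgroup Γ) (q : ℕ)
    (hq : ∀ n ∈ N, (y * n) ^ q = 1) {R : Type} [Ring R] [Algebra K R] (ρ : Γ →* R)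
    (I : Ideal R) [I.IsTwoSided] (hI : ∀ g, ρ g - 1 ∈ I)
    (L : LieSubalgebra K (Gr K I)) {s : ℕ} (S : Finset (Fin s)) (hS : S.Nonempty) (x : Fin s → L)
    (h : Fin s → Γ) (hN : ∀ j, h j ∈ N) (d : Fin s → ℕ) (hd : ∀ j, 1 ≤ d j)
    (hx : ∀ j, Ld K I (d j) (ρ (h j) - 1) (x j)) (z : L) {m : ℕ} {u : R}
    (hz : Ld K I m u z) : Tq (fun j => LieAlgebra.ad K L (x j)) q S z = 0 := by
  have hid := (ident3 (FE K I)
    (fun i j hij φ hφ l u hu => ple I (Nat.add_le_add_left hij l) (hφ l u hu))
    (fun i j φ ψ hφ hψ l u hu => by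
      rw [add_comm i j, ← add_assoc]
      exact hφ _ _ (hψ l u hu))
    (fun _ _ hu => hu) (cj K ρ y) (cj_mem ρ hI (pone I (hI y)))
    (fun j => cj K ρ (h j) - 1) d hd (fun j => cj_mem ρ hI (hx j).mem) q S).2
  rw [Wq_eq_zero _ _ q (fun S => by
      have e1 : ordP (fun i => cj K ρ (h i) - 1 + 1) S
          = cj K ρ (List.ofFn fun i => if i ∈ S then h i else 1).prod := by
        rw [map_list_prod, List.map_ofFn, ordP]
        congr 2
        funext i
        simp only [Function.comp_apply]
        split_ifs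
        · rw [sub_add_cancel]
        · rw [map_one]
      rw [e1, ← map_mul, ← map_pow, hq, map_one]
      refine list_prod_mem fun g hg => ?_
      obtain ⟨i, rfl⟩ := List.mem_ofFn.1 hg
      split_ifs
      · exact hN i
      · exact one_mem _) S hS, zero_sub, neg_mem_iff] at hid
  have hr := rel_Tq L d (fun j => cj K ρ (h j) - 1) (fun j => LieAlgebra.ad K L (x j))
    (fun i m u z hz => by rw [add_comm]; exact (hx i).cj ρ hI hz) q S m u z hz
  exact Subtype.ext (hr.zero_iff.2 (hid m u hz.mem))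

/-- The graded form of the theorem on Lie algebras, over the field `K`. -/
def ZP (K : Type) [Field K] (q : ℕ) : Prop :=
  ∀ (L : Type) [LieRing L] [LieAlgebra K L] (G : ℕ → Submodule K L) (r : ℕ) (a : Fin r → L),
    iSupIndep G → ⨆ d, G d = ⊤ → (∀ i j x y, x ∈ G i → y ∈ G j → ⁅x, y⁆ ∈ G (i + j)) →
    G 0 = ⊥ → (∀ i, a i ∈ G 1) → LieSubalgebra.lieSpan K L (Set.range a) = ⊤ →
    (∀ x, IsComm a x → IsNilpotent (LieAlgebra.ad K L x)) →
    (∀ (s : ℕ) (x : Fin s → L) (S : Finset (Fin s)), (∀ i, ∃ d, 2 ≤ d ∧ x i ∈ G d) → S.Nonempty →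
      Tq (fun i => LieAlgebra.ad K L (x i)) q S = 0) →
    ∃ c, G (c + 1) = ⊥

theorem core2 {K : Type} [Field K] {p : ℕ} [Fact p.Prime] [CharP K p] {q : ℕ} (hZ : ZP K q)
    {Γ : Type} [Group Γ] (hΓ : IsPGroup p Γ)
    {r : ℕ} (g : Fin r → Γ) (y : Γ) (N : Subgroup Γ) (hcomm : ∀ a b : Γ, ⁅a, b⁆ ∈ N)
    (hq : ∀ n ∈ N, (y * n) ^ q = 1)
    {R : Type} [Ring R] [Algebra K R] (ρ : Γ →* R) (I : Ideal R) [I.IsTwoSided]
    (hI : ∀ g, ρ g - 1 ∈ I) :
    ∃ n, ∀ w : List (Fin r), w.length = n → (w.map fun i => ρ (g i) - 1).prod ∈ I ^ (n + 1) := by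
  choose b hb using fun i => ld_ex (k := K) (pone I (hI (g i)))
  set L := LieSubalgebra.lieSpan K (Gr K I) (Set.range b) with hL
  set a : Fin r → L := fun i => ⟨b i, LieSubalgebra.subset_lieSpan ⟨i, rfl⟩⟩ with ha
  have hgen : LieSubalgebra.lieSpan K L (Set.range a) = ⊤ := by
    rw [← LieSubalgebra.lieSpan_lieSpan_coe_preimage]
    congr 1
    ext x
    constructor
    · rintro ⟨i, rfl⟩; exact ⟨i, rfl⟩
    · rintro ⟨i, hi⟩; exact ⟨i, Subtype.ext hi⟩
  have hspan := span_isComm K a hgen
  let C : ℕ → Set L := fun d => {x | ∃ h : Γ, 1 ≤ d ∧ Ld K I d (ρ h - 1) x ∧ (2 ≤ d → h ∈ N)}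
  have hCa : ∀ i, a i ∈ C 1 := fun i => ⟨g i, le_rfl, hb i, fun h => absurd h (by norm_num)⟩
  have hCb : ∀ i j x y, x ∈ C i → y ∈ C j → ⁅x, y⁆ ∈ C (i + j) := by
    rintro i j x y ⟨h, hd, hx, -⟩ ⟨h', -, hy, -⟩
    exact ⟨⁅h, h'⁆, le_trans hd (Nat.le_add_right _ _), Ld.comm ρ hI hx hy, fun _ => hcomm _ _⟩
  have hC : ∀ x : L, IsComm a x → ∃ d, x ∈ C d := by
    intro x hx
    induction hx with
    | gen i => exact ⟨1, hCa i⟩
    | br _ _ ihx ihy =>
      obtain ⟨d, hd⟩ := ihx
      obtain ⟨d', hd'⟩ := ihy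
      exact ⟨d + d', hCb _ _ _ _ hd hd'⟩
  have hnil : ∀ d, ∀ x ∈ C d, IsNilpotent (x : Gr K I) := by
    rintro d x ⟨h, -, hx, -⟩
    obtain ⟨m, hm⟩ := hΓ h
    have := hx.pow (p ^ m)
    rw [sub_one_pow' K, ← map_pow, hm, map_one, sub_self] at this
    exact ⟨_, this.unique (ld_zero _)⟩
  have hhom : ∀ d, ∀ x ∈ Submodule.span K (C d), ∃ u, Ld K I d u (x : L) := by
    intro d x hx
    induction hx using Submodule.span_induction with
    | mem x hx => obtain ⟨h, -, hx, -⟩ := hx; exact ⟨_, hx⟩
    | zero => exact ⟨0, ld_zero d⟩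
    | add x y _ _ hx hy =>
      obtain ⟨u, hu⟩ := hx
      obtain ⟨v, hv⟩ := hy
      exact ⟨u + v, hu.add hv⟩
    | smul c x _ hx =>
      obtain ⟨u, hu⟩ := hx
      exact ⟨c • u, hu.smul c⟩
  obtain ⟨c, hc⟩ := hZ L (fun d => Submodule.span K (C d)) r a
    (by
      rw [iSupIndep_iff_finsetSum_eq_zero_imp_eq_zero]
      intro s v hv h0 i hi
      choose! u hu using fun i hi => hhom i (v i) (hv i hi)
      refine Subtype.ext (ld_indep s u (fun i => ((v i : L) : Gr K I)) hu ?_ i hi)
      rw [← AddSubmonoidClass.coe_finsetSum, h0]; rfl)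
    (by
      rw [eq_top_iff, ← hspan]
      refine Submodule.span_le.2 fun x hx => ?_
      obtain ⟨d, hd⟩ := hC x hx
      exact Submodule.mem_iSup_of_mem d (Submodule.subset_span hd))
    (by
      intro i j x y hx hy
      induction hx using Submodule.span_induction with
      | mem x hx =>
        induction hy using Submodule.span_induction with
        | mem y hy => exact Submodule.subset_span (hCb _ _ _ _ hx hy)
        | zero => rw [lie_zero]; exact zero_mem _
        | add u v _ _ hu hv => rw [lie_add]; exact add_mem hu hv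
        | smul c u _ hu => rw [lie_smul]; exact Submodule.smul_mem _ _ hu
      | zero => rw [zero_lie]; exact zero_mem _
      | add u v _ _ hu hv => rw [add_lie]; exact add_mem hu hv
      | smul c u _ hu => rw [smul_lie]; exact Submodule.smul_mem _ _ hu)
    (by
      rw [Submodule.span_eq_bot]
      rintro x ⟨h, hd, -⟩
      exact absurd hd (by norm_num))
    (fun i => Submodule.subset_span (hCa i)) hgen
    (fun x hx => by
      obtain ⟨d, hd⟩ := hC x hx
      exact LieAlgebra.isNilpotent_ad_of_isNilpotent (hnil d x hd))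
    (by
      intro s x S hS0 hS
      choose d hd hx using hS0
      refine vanish_span (k := K) (fun x : Fin s → L => Tq (fun i => LieAlgebra.ad K L (x i)) q S)
        S (fun y i hi => ?_) (fun i => C (d i)) (fun x hx => ?_) x hx
      · obtain ⟨T, hT⟩ := Tq_update K (fun l => LieAlgebra.ad K L (y l)) i q S hi
        refine ⟨T.comp (LieAlgebra.ad K L).toLinearMap, fun c => ?_⟩
        rw [LinearMap.comp_apply]
        exact (congrArg (fun φ => Tq φ q S) (Function.comp_update (LieAlgebra.ad K L) y i c)).trans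
          (hT _)
      · have hx' : ∀ i, (if i ∈ S then x i else 0) ∈ C (d i) := by
          intro i
          split_ifs with hi
          · exact hx i hi
          · refine ⟨1, le_trans (by norm_num) (hd i), ?_, fun _ => one_mem _⟩
            rw [map_one, sub_self]; exact ld_zero _
        choose h hd1 hx' hN using hx'
        rw [Tq_congr (b := fun i => LieAlgebra.ad K L (if i ∈ S then x i else 0)) q
          fun i hi => by rw [if_pos hi]]
        refine LinearMap.ext_on hspan fun z hz => ?_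
        obtain ⟨d', h', -, hz, -⟩ := hC z hz
        exact tq_high y N q hq ρ I hI L S hS _ h (fun i => hN i (hd i)) d hd1 hx' z hz)
  have hrc : ∀ (l : List (Fin r)) (i : Fin r), ∃ x ∈ C (l.length + 1),
      (x : Gr K I) = rc b l i := by
    intro l i
    induction l with
    | nil => exact ⟨a i, hCa i, rfl⟩
    | cons j l ih =>
      obtain ⟨x, h1, h2⟩ := ih
      refine ⟨⁅a j, x⁆, ?_, ?_⟩
      · rw [List.length_cons, add_comm]; exact hCb _ _ _ _ (hCa j) h1
      · change b j * x - x * b j = b j * rc b l i - rc b l i * b j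
        rw [h2]
  obtain ⟨n, hn⟩ := words_nil c (Gr K I) b
    (fun l i => by
      obtain ⟨x, h1, h2⟩ := hrc l i
      rw [← h2]; exact hnil _ x h1)
    (fun l i hl => by
      obtain ⟨x, h1, h2⟩ := hrc l i
      rw [hl] at h1
      rw [← h2, Submodule.span_eq_bot.1 hc x h1]; rfl)
  refine ⟨n, fun w hw => ?_⟩
  have hw' : ∀ w : List (Fin r), Ld K I w.length (w.map fun i => ρ (g i) - 1).prod
      (w.map b).prod := by
    intro w
    induction w with
    | nil => exact ld_one
    | cons j w ih =>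
      rw [List.map_cons, List.map_cons, List.prod_cons, List.prod_cons, List.length_cons, add_comm]
      exact (hb j).mul ih
  rw [← hw]
  exact (hw' w).zero_iff.1 (hn w hw)

end Pool.Agent.MP_3312ae_al.HR.C1
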