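import Pool.Agent.MP_3312ae_al.HR.C1.Aug
import Pool.Agent.MP_3312ae_al.HR.C1.Core3
import Pool.Agent.MP_3312ae_al.HR.Asm.Exp

/-! Block C1 for the graded form with the Higman law. -/

set_option autoImplicit false

namespace Pool.Agent.MP_3312ae_al.HR.C1

open scoped commutatorElement

section
variable (k : Type) [CommRing k] {Γ : Type} [Group Γ] {r : ℕ} (g : Fin r → Γ)

/-- The augmentation ideal, generated by the `g i - 1`. -/
noncomputable abbrev aug : Ideal (MonoidAlgebra k Γ) :=
  Ideal.span (Set.range fun i => MonoidAlgebra.of k Γ (g i) - 1)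

theorem aug_mem (hgen : Subgroup.closure (Set.range g) = ⊤) (x : Γ) :
    MonoidAlgebra.of k Γ x - 1 ∈ aug k g := by
  set ρ := MonoidAlgebra.of k Γ with hρ
  have hx : x ∈ Subgroup.closure (Set.range g) := by rw [hgen]; trivial
  induction hx using Subgroup.closure_induction with
  | mem x hx => obtain ⟨i, rfl⟩ := hx; exact Ideal.subset_span ⟨i, rfl⟩
  | one => rw [map_one, sub_self]; exact zero_mem _
  | mul x y _ _ hx hy =>
    have : ρ (x * y) - 1 = ρ x * (ρ y - 1) + (ρ x - 1) := by rw [map_mul]; noncomm_ring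
    rw [this]; exact add_mem (Ideal.mul_mem_left _ _ hy) hx
  | inv x _ hx =>
    have : ρ x⁻¹ - 1 = -ρ x⁻¹ * (ρ x - 1) := by
      rw [mul_sub, neg_mul, ← map_mul, inv_mul_cancel, map_one]; noncomm_ring
    rw [this]; exact Ideal.mul_mem_left _ _ hx

theorem aug_two (hgen : Subgroup.closure (Set.range g) = ⊤) : (aug k g).IsTwoSided := by
  have hI := aug_mem k g hgen
  set ρ := MonoidAlgebra.of k Γ with hρ
  refine ⟨fun {x} y hx => ?_⟩
  induction hx using Submodule.span_induction with
  | mem x hx =>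
    obtain ⟨i, rfl⟩ := hx
    induction y using MonoidAlgebra.induction_on with
    | of m =>
      have : (ρ (g i) - 1) * ρ m = (ρ (g i * m) - 1) - (ρ m - 1) := by rw [map_mul]; noncomm_ring
      exact this ▸ sub_mem (hI _) (hI _)
    | add u v hu hv => rw [mul_add]; exact add_mem hu hv
    | smul c u hu => rw [mul_smul_comm, Algebra.smul_def]; exact Ideal.mul_mem_left _ _ hu
  | zero => rw [zero_mul]; exact zero_mem _
  | add u v _ _ hu hv => rw [add_mul]; exact add_mem hu hv
  | smul c u _ hu => rw [smul_eq_mul, mul_assoc]; exact Ideal.mul_mem_left _ _ hu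

theorem aug_dec (hgen : Subgroup.closure (Set.range g) = ⊤) (u : MonoidAlgebra k Γ) :
    ∃ c : k, u - algebraMap _ _ c ∈ aug k g := by
  induction u using MonoidAlgebra.induction_on with
  | of m => exact ⟨1, by rw [map_one]; exact aug_mem k g hgen m⟩
  | add u v hu hv =>
    obtain ⟨c, hc⟩ := hu
    obtain ⟨d, hd⟩ := hv
    exact ⟨c + d, by rw [map_add, add_sub_add_comm]; exact add_mem hc hd⟩
  | smul c u hu =>
    obtain ⟨d, hd⟩ := hu
    exact ⟨c * d, by rw [map_mul, Algebra.smul_def, ← mul_sub]; exact Ideal.mul_mem_left _ _ hd⟩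

end

theorem aug_descend (k K : Type) [Field k] [Field K] [Algebra k K] {Γ : Type} [Group Γ] {r : ℕ}
    (g : Fin r → Γ) (hgen : Subgroup.closure (Set.range g) = ⊤) (m : ℕ) (w : List (Fin r))
    (h : (w.map fun i => MonoidAlgebra.of K Γ (g i) - 1).prod ∈ aug K g ^ m) :
    (w.map fun i => MonoidAlgebra.of k Γ (g i) - 1).prod ∈ aug k g ^ m := by
  have := aug_two k g hgen
  have := aug_two K g hgen
  obtain ⟨l, hl⟩ := Module.Projective.exists_dual_eq_one k (one_ne_zero (α := K))
  set ι := MonoidAlgebra.mapRingHom Γ (algebraMap k K) with hι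
  set Λ : MonoidAlgebra K Γ → MonoidAlgebra k Γ := MonoidAlgebra.map l.toAddMonoidHom with hΛ
  have h0 : Λ 0 = 0 := MonoidAlgebra.map_zero _
  have hadd : ∀ u v, Λ (u + v) = Λ u + Λ v := MonoidAlgebra.map_add _
  have hmul : ∀ u v, Λ (u * ι v) = Λ u * v := by
    intro u v
    induction u using MonoidAlgebra.induction_linear with
    | zero => rw [zero_mul, h0, zero_mul]
    | add u u' hu hu' => rw [add_mul, hadd, hadd, hu, hu', add_mul]
    | single a c =>
      induction v using MonoidAlgebra.induction_linear with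
      | zero => rw [map_zero, mul_zero, h0, mul_zero]
      | add v v' hv hv' => rw [map_add, mul_add, hadd, hv, hv', mul_add]
      | single b d =>
        simp only [hι, hΛ, MonoidAlgebra.mapRingHom_single, MonoidAlgebra.single_mul_single,
          MonoidAlgebra.map_single, LinearMap.toAddMonoidHom_coe]
        rw [mul_comm c, ← Algebra.smul_def, map_smul, smul_eq_mul, mul_comm]
  have hw : ∀ w : List (Fin r), (w.map fun i => MonoidAlgebra.of K Γ (g i) - 1).prod
      = ι (w.map fun i => MonoidAlgebra.of k Γ (g i) - 1).prod := by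
    intro w
    rw [map_list_prod, List.map_map]
    congr 2
    funext i
    simp [hι]
  have key : ∀ x ∈ Ideal.span (Wd (fun i => MonoidAlgebra.of K Γ (g i) - 1) m),
      ∀ u, Λ (u * x) ∈ aug k g ^ m := by
    intro x hx
    induction hx using Submodule.span_induction with
    | mem x hx =>
      obtain ⟨w, rfl, rfl⟩ := hx
      intro u
      rw [hw, hmul]
      exact Ideal.mul_mem_left _ _ (wd_mem _ w)
    | zero => intro u; rw [mul_zero, h0]; exact zero_mem _
    | add x y _ _ hx hy => intro u; rw [mul_add, hadd]; exact add_mem (hx u) (hy u)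
    | smul c x _ hx => intro u; rw [smul_eq_mul, ← mul_assoc]; exact hx _
  have h1 := key _ (pow_le_wd _ m h) 1
  have h2 : Λ 1 = 1 := by
    simp only [hΛ, MonoidAlgebra.one_def, MonoidAlgebra.map_single, LinearMap.toAddMonoidHom_coe,
      hl]
  rwa [hw, hmul, h2, one_mul] at h1

theorem finite_of3 {p : ℕ} [hp : Fact p.Prime] {q : ℕ} (K : Type) [Field K] [Algebra (ZMod p) K]
    [CharP K p] (hZ : ZP K q) {Γ : Type} [Group Γ]
    (hΓ : IsPGroup p Γ) {r : ℕ} (g : Fin r → Γ) (hgen : Subgroup.closure (Set.range g) = ⊤) (y : Γ)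
    (N : Subgroup Γ) (hcomm : ∀ a b : Γ, ⁅a, b⁆ ∈ N) (hq : ∀ n ∈ N, (y * n) ^ q = 1)
    (hres : ∀ x : Γ, x ≠ 1 → ∃ (X : Type) (_ : Finite X) (_ : MulAction Γ X) (z : X), x • z ≠ z) :
    Finite Γ := by
  have h2 := aug_two (ZMod p) g hgen
  have h2K := aug_two K g hgen
  have hdec := aug_dec (ZMod p) g hgen
  obtain ⟨n, hnK⟩ := core2 hZ hΓ g y N hcomm hq (MonoidAlgebra.of K Γ) (aug K g) (aug_mem K g hgen)
  have hn := fun w hw => aug_descend (ZMod p) K g hgen _ w (hnK w hw)
  set ρ := MonoidAlgebra.of (ZMod p) Γ with hρ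
  set I := aug (ZMod p) g with hIdef
  have hJ : I ^ n ≤ I ^ n * I := by
    rw [← Submodule.pow_succ]
    refine (pow_le_wd _ n).trans (Ideal.span_le.2 ?_)
    rintro _ ⟨w, hw, rfl⟩
    exact hn w hw
  obtain ⟨T, hT, h⟩ := finite_mod (fun i => ρ (g i) - 1) (ZMod p) hdec n
  choose t ht ht' using fun x : Γ => h (ρ x)
  have := hT.to_subtype
  refine Finite.of_injective (fun x => (⟨t x, ht x⟩ : T)) fun x y hxy => ?_
  have e1 : t x = t y := congrArg Subtype.val hxy
  have e2 : ρ (y⁻¹ * x) - 1 ∈ I ^ n := by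
    have h3 := (I ^ n).mul_mem_left (ρ y⁻¹) (sub_mem (ht' x) (ht' y))
    rwa [e1, sub_sub_sub_cancel_right, mul_sub, ← map_mul, ← map_mul, inv_mul_cancel,
      map_one] at h3
  by_contra hne
  obtain ⟨X, _, _, z, hz⟩ := hres (y⁻¹ * x) fun h => hne (inv_mul_eq_one.1 h).symm
  have : Finite (MonoidAlgebra (ZMod p) X) :=
    Finite.of_injective (fun u : MonoidAlgebra (ZMod p) X => (u.coeff : X → ZMod p))
      (DFunLike.coe_injective.comp MonoidAlgebra.coeff_injective)
  have h4 := unipotent hΓ ρ (Representation.ofMulAction (ZMod p) Γ X).asAlgebraHom.toRingHom g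
    (I ^ n) hJ _ e2
  rw [map_sub, map_one, sub_eq_zero] at h4
  have h5 : Representation.ofMulAction (ZMod p) Γ X (y⁻¹ * x) = 1 := by
    rw [← h4]; exact (Representation.asAlgebraHom_of _ _).symm
  have h6 := Representation.ofMulAction_single (k := ZMod p) (y⁻¹ * x) z 1
  rw [h5, Module.End.one_apply, MonoidAlgebra.single_left_inj one_ne_zero] at h6
  exact hz h6.symm

theorem locFin_of_ZP (hZ : ∀ (p : ℕ) [Fact p.Prime] (e : ℕ), ∃ (K : Type) (_ : Field K)
    (_ : Algebra (ZMod p) K) (_ : CharP K p), ZP K (p ^ e)) : LocFin := by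
  classical
  intro p hp G _ _ _ _ _ _ hG S
  have hT : ∀ g : G, IsOfFinOrder g := fun g => by
    obtain ⟨k, hk⟩ := hG g
    exact isOfFinOrder_iff_pow_eq_one.2 ⟨p ^ k, pow_pos hp.out.pos _, hk⟩
  obtain ⟨y, e, he, hy⟩ := H59.exists_coset hT
  obtain ⟨K, _, _, _, hK⟩ := hZ p e
  obtain ⟨U, hU, hUo, hU1⟩ := mem_nhds_iff.1 hy
  obtain ⟨M, hM⟩ := ProfiniteGrp.exist_openNormalSubgroup_sub_open_nhds_of_one hUo hU1
  have key : ∀ T : Finset G, (∀ t ∈ T, t ∈ M.toSubgroup) →
      Finite (Subgroup.closure ((insert y T : Finset G) : Set G)) := by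
    intro T hTM
    set S' : Finset G := insert y T with hS'
    set Γ := Subgroup.closure (S' : Set G) with hΓ
    let g : Fin S'.card → Γ := fun i =>
      ⟨S'.equivFin.symm i, Subgroup.subset_closure (S'.equivFin.symm i).2⟩
    have hcyc : Γ ≤ (Subgroup.zpowers (QuotientGroup.mk' M.toSubgroup y)).comap
        (QuotientGroup.mk' M.toSubgroup) := by
      refine (Subgroup.closure_le _).2 fun x hx => ?_
      rcases Finset.mem_insert.1 hx with rfl | hx
      · exact Subgroup.mem_zpowers _
      · change QuotientGroup.mk' M.toSubgroup x ∈ Subgroup.zpowers _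
        rw [QuotientGroup.mk'_apply _ x, (QuotientGroup.eq_one_iff x).2 (hTM x hx)]
        exact one_mem _
    refine finite_of3 K hK (hG.to_subgroup Γ) g ?_
      ⟨y, Subgroup.subset_closure (Finset.mem_insert_self _ _)⟩ (M.toSubgroup.subgroupOf Γ) ?_ ?_ ?_
    · rw [← Subgroup.closure_closure_coe_preimage]
      congr 1
      ext x
      constructor
      · rintro ⟨i, rfl⟩; exact (S'.equivFin.symm i).2
      · intro hx; exact ⟨S'.equivFin ⟨x, hx⟩, Subtype.ext (by simp [g])⟩
    · intro a b
      obtain ⟨i, hi⟩ := hcyc a.2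
      obtain ⟨j, hj⟩ := hcyc b.2
      rw [Subgroup.mem_subgroupOf, ← QuotientGroup.eq_one_iff]
      change QuotientGroup.mk' M.toSubgroup (Γ.subtype ⁅a, b⁆) = 1
      rw [map_commutatorElement, map_commutatorElement, commutatorElement_eq_one_iff_commute]
      change Commute (QuotientGroup.mk' M.toSubgroup a) (QuotientGroup.mk' M.toSubgroup b)
      rw [← hi, ← hj]
      exact Commute.zpow_zpow_self _ _ _
    · intro n hn
      exact Subtype.ext (pow_pow_eq_one_of_pow hG he (hU (hM hn)))
    · intro x hx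
      obtain ⟨K, hK⟩ := ProfiniteGrp.exist_openNormalSubgroup_sub_open_nhds_of_one
        (U := {(x : G)}ᶜ) isOpen_compl_singleton (fun h => hx (Subtype.ext h.symm))
      refine ⟨G ⧸ K.toSubgroup, inferInstance, inferInstance, ((1 : G) : G ⧸ K.toSubgroup),
        fun h => ?_⟩
      have h' : (((x : G) * 1 : G) : G ⧸ K.toSubgroup) = ((1 : G) : G ⧸ K.toSubgroup) := h
      rw [mul_one, QuotientGroup.mk_one, QuotientGroup.eq_one_iff] at h'
      exact hK h' rfl
  have : M.toSubgroup.FiniteIndex := Subgroup.finiteIndex_of_finite_quotient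
  set H := M.toSubgroup.subgroupOf (Subgroup.closure (S : Set G)) with hH
  obtain ⟨T, hT⟩ := (Group.fg_iff_subgroup_fg H).1 inferInstance
  have hfin := key (T.image Subtype.val) (fun t ht => by
    obtain ⟨s, hs, rfl⟩ := Finset.mem_image.1 ht
    have : s ∈ H := hT ▸ Subgroup.subset_closure hs
    exact this)
  have hle : H ≤ (Subgroup.closure ((insert y (T.image Subtype.val) : Finset G) : Set G)).comap
      (Subgroup.closure (S : Set G)).subtype := by
    rw [← hT]
    refine (Subgroup.closure_le _).2 fun s hs => Subgroup.subset_closure ?_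
    exact Finset.mem_insert_of_mem (Finset.mem_image_of_mem _ hs)
  have : Finite H := Finite.of_injective
    (fun x : H => (⟨(x.1 : G), hle x.2⟩ :
      Subgroup.closure ((insert y (T.image Subtype.val) : Finset G) : Set G)))
    fun x z h => Subtype.ext (Subtype.ext (Subtype.mk.inj h))
  exact Finite.of_subgroup_quotient H

end Pool.Agent.MP_3312ae_al.HR.C1

namespace Pool.Agent.MP_3312ae_al.HR

/-- Block C1 for the graded theorem with the Higman law. -/
theorem locFin_of2 (hZ : Z30.ThmZ2) : LocFin := by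
  refine C1.locFin_of_ZP fun p _ e => ⟨AlgebraicClosure (ZMod p), inferInstance, inferInstance,
    inferInstance, fun L _ _ G r a h1 _ h3 _ h5 h6 h7 h8 => ?_⟩
  obtain ⟨S, hS⟩ := hZ p _ L G r e 2 a h1 h3 h5 h6 h7 h8
  exact ⟨S, hS _ (Nat.le_succ S)⟩

end Pool.Agent.MP_3312ae_al.HR
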