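import Pool.Agent.MP_3312ae_al.HR.C1.Aug
import Pool.Agent.MP_3312ae_al.HR.Asm.Exp

/-! Block C1: the theorem on Lie algebras implies local finiteness of profinite `p`-torsion
groups. -/

set_option autoImplicit false

namespace Pool.Agent.MP_3312ae_al.HR

open scoped commutatorElement

theorem locFin_of (hZ : ThmZ) : LocFin := by
  classical
  intro p hp G _ _ _ _ _ _ hG S
  have hT : ∀ g : G, IsOfFinOrder g := fun g => by
    obtain ⟨k, hk⟩ := hG g
    exact isOfFinOrder_iff_pow_eq_one.2 ⟨p ^ k, pow_pos hp.out.pos _, hk⟩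
  obtain ⟨y, e, he, hy⟩ := H59.exists_coset hT
  obtain ⟨U, hU, hUo, hU1⟩ := mem_nhds_iff.1 hy
  obtain ⟨M, hM⟩ := ProfiniteGrp.exist_openNormalSubgroup_sub_open_nhds_of_one hUo hU1
  have key : ∀ T : Finset G, (∀ t ∈ T, t ∈ M.toSubgroup) →
      Finite (Subgroup.closure ((insert y T : Finset G) : Set G)) := by
    intro T hTM
    set S' : Finset G := insert y T with hS'
    set Γ := Subgroup.closure (S' : Set G) with hΓ
    let g : Fin S'.card → Γ := fun i =>
      ⟨S'.equivFin.symm i, Subgroup.subset_closure (S'.equivFin.symm i).2⟩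
    let i₀ : Fin S'.card := S'.equivFin ⟨y, Finset.mem_insert_self _ _⟩
    have hi₀ : (g i₀ : G) = y := by simp [g, i₀]
    have hcyc : Γ ≤ (Subgroup.zpowers (QuotientGroup.mk' M.toSubgroup y)).comap
        (QuotientGroup.mk' M.toSubgroup) := by
      refine (Subgroup.closure_le _).2 fun x hx => ?_
      rcases Finset.mem_insert.1 hx with rfl | hx
      · exact Subgroup.mem_zpowers _
      · change QuotientGroup.mk' M.toSubgroup x ∈ Subgroup.zpowers _
        rw [QuotientGroup.mk'_apply _ x, (QuotientGroup.eq_one_iff x).2 (hTM x hx)]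
        exact one_mem _
    refine C1.finite_of hZ (hG.to_subgroup Γ) g ?_ i₀ (M.toSubgroup.subgroupOf Γ) ?_ ?_ e ?_ ?_
    · rw [← Subgroup.closure_closure_coe_preimage]
      congr 1
      ext x
      constructor
      · rintro ⟨i, rfl⟩; exact (S'.equivFin.symm i).2
      · intro hx; exact ⟨S'.equivFin ⟨x, hx⟩, Subtype.ext (by simp [g])⟩
    · intro a b
      obtain ⟨i, hi⟩ := hcyc a.2
      obtain ⟨j, hj⟩ := hcyc b.2
      rw [Subgroup.mem_subgroupOf, ← QuotientGroup.eq_one_iff]
      change QuotientGroup.mk' M.toSubgroup (Γ.subtype ⁅a, b⁆) = 1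
      rw [map_commutatorElement, map_commutatorElement, commutatorElement_eq_one_iff_commute]
      change Commute (QuotientGroup.mk' M.toSubgroup a) (QuotientGroup.mk' M.toSubgroup b)
      rw [← hi, ← hj]
      exact Commute.zpow_zpow_self _ _ _
    · intro i
      rcases Finset.mem_insert.1 (S'.equivFin.symm i).2 with h | h
      · exact Or.inl (Subtype.ext (h.trans hi₀.symm))
      · exact Or.inr (hTM _ h)
    · intro n hn
      apply Subtype.ext
      change ((g i₀ : G) * n) ^ p ^ e = 1
      rw [hi₀]
      exact pow_pow_eq_one_of_pow hG he (hU (hM hn))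
    · intro x hx
      obtain ⟨K, hK⟩ := ProfiniteGrp.exist_openNormalSubgroup_sub_open_nhds_of_one
        (U := {(x : G)}ᶜ) isOpen_compl_singleton (fun h => hx (Subtype.ext h.symm))
      refine ⟨G ⧸ K.toSubgroup, inferInstance, inferInstance, ((1 : G) : G ⧸ K.toSubgroup),
        fun h => ?_⟩
      have h' : (((x : G) * 1 : G) : G ⧸ K.toSubgroup) = ((1 : G) : G ⧸ K.toSubgroup) := h
      rw [mul_one, QuotientGroup.mk_one, QuotientGroup.eq_one_iff] at h'
      exact hK h' rfl
  have : M.toSubgroup.FiniteIndex := Subgroup.finiteIndex_of_finite_quotient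
  set H := M.toSubgroup.subgroupOf (Subgroup.closure (S : Set G)) with hH
  obtain ⟨T, hT⟩ := (Group.fg_iff_subgroup_fg H).1 inferInstance
  have hfin := key (T.image Subtype.val) (fun t ht => by
    obtain ⟨s, hs, rfl⟩ := Finset.mem_image.1 ht
    have : s ∈ H := hT ▸ Subgroup.subset_closure hs
    exact this)
  have hle : H ≤ (Subgroup.closure ((insert y (T.image Subtype.val) : Finset G) : Set G)).comap
      (Subgroup.closure (S : Set G)).subtype := by
    rw [← hT]
    refine (Subgroup.closure_le _).2 fun s hs => Subgroup.subset_closure ?_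
    exact Finset.mem_insert_of_mem (Finset.mem_image_of_mem _ hs)
  have : Finite H := Finite.of_injective
    (fun x : H => (⟨(x.1 : G), hle x.2⟩ :
      Subgroup.closure ((insert y (T.image Subtype.val) : Finset G) : Set G)))
    fun x z h => Subtype.ext (Subtype.ext (Subtype.mk.inj h))
  exact Finite.of_subgroup_quotient H

end Pool.Agent.MP_3312ae_al.HR
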